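import Pool.Agent.H82.BZ.Defs

open MeasureTheory Set Filter Topology

noncomputable section

namespace Pool.Agent.H82.BZ

variable {d : ℕ}

lemma collision_zero (B : ℝ → ℝ → ℝ) (g ψ : V d → ℝ)
    (h : ∀ v w σ : V d, ‖σ‖ = 1 → ψ (post₁ v w σ) + ψ (post₂ v w σ) - ψ v - ψ w = 0) :
    collision B g ψ = 0 := by
  have h0 : collisionCut B g ψ = fun _ => 0 := by
    funext ε
    unfold collisionCut
    have : ∀ v w : V d, ∫ σ : Metric.sphere (0 : V d) 1,
        (if cosDev v w σ ≤ 1 - ε then
          g v * g w * (ψ (post₁ v w σ) + ψ (post₂ v w σ) - ψ v - ψ w) * B ‖v - w‖ (cosDev v w σ)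
        else 0) ∂((volume : Measure (V d)).toSphere) = 0 := by
      intro v w
      have : ∀ σ : Metric.sphere (0 : V d) 1,
        (if cosDev v w σ ≤ 1 - ε then
          g v * g w * (ψ (post₁ v w σ) + ψ (post₂ v w σ) - ψ v - ψ w) * B ‖v - w‖ (cosDev v w σ)
        else 0) = 0 := by
        intro σ
        have hσ : ‖(σ : V d)‖ = 1 := by simp
        rw [h v w σ hσ]
        simp
      simp [this]
    simp [this]
  unfold collision
  rw [h0]
  exact (tendsto_const_nhds).limUnder_eq

lemma collision_one (B : ℝ → ℝ → ℝ) (g : V d → ℝ) : collision B g (fun _ => 1) = 0 :=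
  collision_zero B g _ fun v w σ _ => by ring

lemma collision_coord (B : ℝ → ℝ → ℝ) (g : V d → ℝ) (i : Fin d) :
    collision B g (fun v => v i) = 0 :=
  collision_zero B g _ fun v w σ _ => by
    simp [post₁, post₂]
    ring

lemma collision_sq (B : ℝ → ℝ → ℝ) (g : V d → ℝ) :
    collision B g (fun v => ‖v‖ ^ 2) = 0 :=
  collision_zero B g _ fun v w σ hσ => by
    have h1 := parallelogram_law_with_norm ℝ ((1 / 2 : ℝ) • (v + w)) ((‖v - w‖ / 2) • σ)
    have h2 := parallelogram_law_with_norm ℝ v w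
    have h3 : ‖(1 / 2 : ℝ) • (v + w)‖ = ‖v + w‖ / 2 := by
      rw [norm_smul]; norm_num; ring
    have h4 : ‖(‖v - w‖ / 2) • σ‖ = ‖v - w‖ / 2 := by
      rw [norm_smul, hσ]; simp
    rw [h3, h4] at h1
    simp only [post₁, post₂]
    nlinarith [h1, h2]

lemma test_one : VelocityTest (fun _ : V d => (1 : ℝ)) where
  smooth := contDiff_const
  lipschitz := ⟨0, fun v w => by simp⟩

lemma test_coord (i : Fin d) : VelocityTest (fun v : V d => v i) where
  smooth := by
    exact (EuclideanSpace.proj i : V d →L[ℝ] ℝ).contDiff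
  lipschitz := ⟨0, fun v w => by
    have : ∀ v : V d, fderiv ℝ (fun v : V d => v i) v = (EuclideanSpace.proj i : V d →L[ℝ] ℝ) := by
      intro v
      exact (EuclideanSpace.proj i : V d →L[ℝ] ℝ).fderiv
    rw [this, this]
    simp⟩

lemma test_sq : VelocityTest (fun v : V d => ‖v‖ ^ 2) where
  smooth := contDiff_norm_sq ℝ
  lipschitz := ⟨2, fun v w => by
    have h : ∀ v : V d, fderiv ℝ (fun v : V d => ‖v‖ ^ 2) v = (2 : ℝ) • innerSL ℝ v := by
      intro v
      have := (hasStrictFDerivAt_norm_sq v).hasFDerivAt.fderiv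
      rw [this]
      ext w
      simp [two_smul, two_mul]
    rw [h, h, ← smul_sub, ← map_sub, norm_smul, innerSL_apply_norm]
    simp⟩

end Pool.Agent.H82.BZ
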