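import Mathlib

/-!
# The Boltzmann equation on the torus: definitions

Positions `x` and velocities `v` are vectors of `V d = ℝ^d`; functions on the torus `𝕋^d` are
functions of `x` which are periodic with respect to `ℤ^d`, and integrals over the torus are
integrals over the cube `[0, 1)^d`.
-/

open MeasureTheory Set Filter Topology

noncomputable section

namespace Pool.Agent.H82.BZ

/-- Positions and velocities. -/
abbrev V (d : ℕ) : Type := EuclideanSpace ℝ (Fin d)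

/-- The vector of the lattice `ℤ^d` with coordinates `n`. -/
def lat {d : ℕ} (n : Fin d → ℤ) : V d := WithLp.toLp 2 fun i => (n i : ℝ)

/-- Periodicity with respect to `ℤ^d`. -/
def Periodic {d : ℕ} {α : Type*} (g : V d → α) : Prop :=
  ∀ (n : Fin d → ℤ) (x : V d), g (x + lat n) = g x

/-- The fundamental domain `[0, 1)^d` of the torus. -/
def cube (d : ℕ) : Set (V d) := {x | ∀ i, 0 ≤ x i ∧ x i < 1}

/-- The integral over the phase space `𝕋^d × ℝ^d`. -/
def phase {d : ℕ} (g : V d → V d → ℝ) : ℝ :=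
  ∫ p : V d × V d in cube d ×ˢ (univ : Set (V d)), g p.1 p.2

/-- The cosine of the deviation angle of the collision of the velocities `v`, `w` with the
direction `σ`. -/
def cosDev {d : ℕ} (v w σ : V d) : ℝ := inner ℝ (v - w) σ / ‖v - w‖

/-- The velocity `v'` after the collision. -/
def post₁ {d : ℕ} (v w σ : V d) : V d := (1 / 2 : ℝ) • (v + w) + (‖v - w‖ / 2) • σ

/-- The velocity `v'_*` after the collision. -/
def post₂ {d : ℕ} (v w σ : V d) : V d := (1 / 2 : ℝ) • (v + w) - (‖v - w‖ / 2) • σ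

/-- The weak form of the collision operator with the kernel `B`, restricted to the collisions with
`cos θ ≤ 1 - ε`:
`(1/2) ∫∫∫ g(v) g(w) (ψ(v') + ψ(w') - ψ(v) - ψ(w)) B(|v - w|, cos θ) dσ dw dv`. -/
def collisionCut {d : ℕ} (B : ℝ → ℝ → ℝ) (g ψ : V d → ℝ) (ε : ℝ) : ℝ :=
  1 / 2 * ∫ v : V d, ∫ w : V d, ∫ σ : Metric.sphere (0 : V d) 1,
    (if cosDev v w σ ≤ 1 - ε then
      g v * g w * (ψ (post₁ v w σ) + ψ (post₂ v w σ) - ψ v - ψ w) * B ‖v - w‖ (cosDev v w σ)
    else 0) ∂((volume : Measure (V d)).toSphere)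

/-- The weak form `∫ Q(g, g) ψ dv` of the collision operator: the limit `ε → 0` of
`collisionCut`. -/
def collision {d : ℕ} (B : ℝ → ℝ → ℝ) (g ψ : V d → ℝ) : ℝ :=
  limUnder (𝓝[>] (0 : ℝ)) (collisionCut B g ψ)

/-- Test functions of the velocity: smooth functions with a Lipschitz continuous derivative. -/
structure VelocityTest {d : ℕ} (ψ : V d → ℝ) : Prop where
  smooth : ContDiff ℝ (⊤ : ℕ∞) ψ
  lipschitz : ∃ C : ℝ, ∀ v w, ‖fderiv ℝ ψ v - fderiv ℝ ψ w‖ ≤ C * ‖v - w‖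

/-- The entropy `∫∫ f log f`. -/
def entropy {d : ℕ} (f : ℝ → V d → V d → ℝ) (t : ℝ) : ℝ :=
  phase fun x v => f t x v * Real.log (f t x v)

/-- The total mass `∫∫ f`. -/
def mass {d : ℕ} (f : ℝ → V d → V d → ℝ) (t : ℝ) : ℝ := phase fun x v => f t x v

/-- The total energy `∫∫ f |v|²`. -/
def energy {d : ℕ} (f : ℝ → V d → V d → ℝ) (t : ℝ) : ℝ := phase fun x v => f t x v * ‖v‖ ^ 2

/-- Solutions `f(t, x, v) ≥ 0`, `0 ≤ t < T`, of the Boltzmann equation
`∂_t f + v · ∇_x f = Q(f, f)` on the torus, with collision kernel `B`: continuous functions,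
periodic in `x`, of rapid decay in `v` (locally uniformly in `t < T`), which satisfy the
Boltzmann equation in the weak form (tested with `φ(x) ψ(v)`, `φ` continuously differentiable and
periodic, `ψ` smooth with Lipschitz derivative) and the entropy inequality (H-theorem). -/
structure IsSolution {d : ℕ} (B : ℝ → ℝ → ℝ) (T : ℝ) (f : ℝ → V d → V d → ℝ) : Prop where
  nonneg : ∀ t, 0 ≤ t → t < T → ∀ x v, 0 ≤ f t x v
  periodic : ∀ t, 0 ≤ t → t < T → ∀ v, Periodic fun x => f t x v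
  cont : ContinuousOn (fun p : ℝ × V d × V d => f p.1 p.2.1 p.2.2) (Ico 0 T ×ˢ univ)
  decay : ∀ T', T' < T → ∀ q : ℝ, ∃ C : ℝ, ∀ t, 0 ≤ t → t ≤ T' → ∀ x v,
    f t x v ≤ C * (1 + ‖v‖) ^ (-q)
  weak : ∀ φ : V d → ℝ, ContDiff ℝ 1 φ → Periodic φ → ∀ ψ : V d → ℝ, VelocityTest ψ →
    ∀ t₁ t₂, 0 ≤ t₁ → t₁ ≤ t₂ → t₂ < T →
      (phase fun x v => f t₂ x v * (φ x * ψ v)) - (phase fun x v => f t₁ x v * (φ x * ψ v)) =
        ∫ t in t₁..t₂, ((phase fun x v => f t x v * (fderiv ℝ φ x v * ψ v)) +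
          ∫ x in cube d, φ x * collision B (f t x) ψ)
  entropy_le : ∀ t, 0 ≤ t → t < T → entropy f t ≤ entropy f 0

/-- The points of space at distance at most `r` from `x₀` on the torus. -/
def near {d : ℕ} (x₀ : V d) (r : ℝ) : Set (V d) := {x | ∃ n : Fin d → ℤ, ‖x - x₀ - lat n‖ ≤ r}

/-- The mass in the ball of radius `r` about `x₀`. -/
def massNear {d : ℕ} (f : ℝ → V d → V d → ℝ) (x₀ : V d) (r t : ℝ) : ℝ :=
  ∫ p : V d × V d in (cube d ∩ near x₀ r) ×ˢ (univ : Set (V d)), f t p.1 p.2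

/-- The energy in the ball of radius `r` about `x₀`: the integral of `E(t, x) = ∫ f |v|² dv` over
the ball. -/
def energyNear {d : ℕ} (f : ℝ → V d → V d → ℝ) (x₀ : V d) (r t : ℝ) : ℝ :=
  ∫ p : V d × V d in (cube d ∩ near x₀ r) ×ˢ (univ : Set (V d)), f t p.1 p.2 * ‖p.2‖ ^ 2

end Pool.Agent.H82.BZ
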