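import Pool.Agent.H82.BZ.Virial

open MeasureTheory Set Filter Topology

noncomputable section

namespace Pool.Agent.H82.BZ

variable {d : ℕ} {B : ℝ → ℝ → ℝ} {T : ℝ} {f : ℝ → V d → V d → ℝ}

/-! ### Volumes -/

lemma two_mul_le_abs_sin {z : ℝ} (hz : |z| ≤ 1 / 2) : 2 * |z| ≤ |Real.sin (Real.pi * z)| := by
  wlog h : 0 ≤ z generalizing z
  · have := this (z := -z) (by rwa [abs_neg]) (by linarith)
    rwa [abs_neg, mul_neg, Real.sin_neg, abs_neg] at this
  rw [abs_of_nonneg h] at hz ⊢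
  have h1 := Real.mul_le_sin (x := Real.pi * z) (by positivity) (by nlinarith [Real.pi_pos])
  have h2 : 2 / Real.pi * (Real.pi * z) = 2 * z := by field_simp
  rw [h2] at h1
  exact h1.trans (le_abs_self _)

lemma slab_volume (α ρ : ℝ) :
    volume {y : ℝ | 0 ≤ y ∧ y < 1 ∧ |Real.sin (Real.pi * (y - α))| < Real.pi * ρ} ≤
      ENNReal.ofReal (2 * Real.pi * ρ) := by
  by_cases hρ : 0 < ρ
  swap
  · push Not at hρ
    have : {y : ℝ | 0 ≤ y ∧ y < 1 ∧ |Real.sin (Real.pi * (y - α))| < Real.pi * ρ} = ∅ := by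
      ext y
      simp only [mem_ofPred_eq, mem_empty_iff_false, iff_false, not_and, not_lt]
      intro _ _
      have : Real.pi * ρ ≤ 0 := mul_nonpos_of_nonneg_of_nonpos Real.pi_pos.le hρ
      exact this.trans (abs_nonneg _)
    rw [this]; simp
  set n₀ : ℤ := ⌊-α + 1 / 2⌋ with hn₀
  have hsub : {y : ℝ | 0 ≤ y ∧ y < 1 ∧ |Real.sin (Real.pi * (y - α))| < Real.pi * ρ} ⊆
      Ioo (α + n₀ - Real.pi * ρ / 2) (α + n₀ + Real.pi * ρ / 2) ∪
        Ioo (α + (n₀ + 1) - Real.pi * ρ / 2) (α + (n₀ + 1) + Real.pi * ρ / 2) := by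
    rintro y ⟨h0, h1, h2⟩
    set n : ℤ := ⌊y - α + 1 / 2⌋ with hn
    have hn1 : (n : ℝ) ≤ y - α + 1 / 2 := Int.floor_le _
    have hn2 : y - α + 1 / 2 < n + 1 := Int.lt_floor_add_one _
    have hz : |y - α - n| ≤ 1 / 2 := by rw [abs_le]; constructor <;> linarith
    have hs : |Real.sin (Real.pi * (y - α - n))| = |Real.sin (Real.pi * (y - α))| := by
      rw [show Real.pi * (y - α - n) = Real.pi * (y - α) - n * Real.pi by ring,
        Real.sin_sub_int_mul_pi, abs_mul, abs_zpow]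
      simp
    have h3 := two_mul_le_abs_sin hz
    rw [hs] at h3
    have h4 : |y - α - n| < Real.pi * ρ / 2 := by linarith
    rw [abs_lt] at h4
    have hle1 : n₀ ≤ n := Int.floor_mono (by linarith)
    have hle2 : n ≤ n₀ + 1 := by
      have : n ≤ ⌊(-α + 1 / 2) + 1⌋ := Int.floor_mono (by linarith)
      rwa [Int.floor_add_one] at this
    have : n = n₀ ∨ n = n₀ + 1 := by omega
    rcases this with h | h
    · left
      rw [h] at h4
      exact ⟨by linarith, by linarith⟩
    · right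
      rw [h] at h4
      push_cast at h4
      exact ⟨by linarith, by linarith⟩
  calc _ ≤ _ := measure_mono hsub
    _ ≤ _ := measure_union_le _ _
    _ = ENNReal.ofReal (Real.pi * ρ) + ENNReal.ofReal (Real.pi * ρ) := by
      rw [Real.volume_Ioo, Real.volume_Ioo]
      congr 2 <;> ring
    _ = _ := by
      rw [← ENNReal.ofReal_add (by positivity) (by positivity)]
      congr 1; ring

lemma volume_ino (hd : 1 ≤ d) (a : V d) {ρ : ℝ} (hρ : 0 < ρ) :
    (volume : Measure (V d)) (cube d ∩ {x | S a x < ρ ^ 2}) ≤ ENNReal.ofReal (2 * Real.pi * ρ) := by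
  have hmeas : MeasurableSet (cube d ∩ {x | S a x < ρ ^ 2}) :=
    measurableSet_cube.inter (measurableSet_lt (measurable_S a) measurable_const)
  have h1 := (PiLp.volume_preserving_toLp (Fin d)).measure_preimage hmeas.nullMeasurableSet
  rw [← h1]
  have hsub : (WithLp.toLp 2) ⁻¹' (cube d ∩ {x | S a x < ρ ^ 2}) ⊆
      Set.pi univ fun i => {y : ℝ | 0 ≤ y ∧ y < 1 ∧
        |Real.sin (Real.pi * (y - a i))| < Real.pi * ρ} := by
    rintro y ⟨hy1, hy2⟩ i _
    have h3 := sn_sq_le a i (WithLp.toLp 2 y)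
    have h4 : sn a i (WithLp.toLp 2 y) ^ 2 < ρ ^ 2 := lt_of_le_of_lt h3 hy2
    have h5 : |sn a i (WithLp.toLp 2 y)| < ρ := abs_lt_of_sq_lt_sq h4 hρ.le
    refine ⟨(hy1 i).1, (hy1 i).2, ?_⟩
    simp only [sn] at h5
    rw [abs_div, abs_of_pos Real.pi_pos, div_lt_iff₀ Real.pi_pos] at h5
    linarith
  have i0 : Fin d := ⟨0, by omega⟩
  calc _ ≤ _ := measure_mono hsub
    _ = ∏ i, volume {y : ℝ | 0 ≤ y ∧ y < 1 ∧
        |Real.sin (Real.pi * (y - a i))| < Real.pi * ρ} := by
      rw [volume_pi_pi]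
    _ ≤ ∏ i, (if i = i0 then ENNReal.ofReal (2 * Real.pi * ρ) else 1) := by
      refine Finset.prod_le_prod' fun i _ => ?_
      split_ifs with h
      · exact slab_volume _ _
      · calc _ ≤ volume (Ico (0 : ℝ) 1) := measure_mono fun y hy => ⟨hy.1, hy.2.1⟩
          _ = 1 := by simp
    _ = _ := by rw [Finset.prod_ite_eq' Finset.univ i0]; simp

/-! ### The Gaussian -/

/-- `∫ exp(-|v|²) dv` -/
def gv (d : ℕ) : ℝ := ∫ v : V d, Real.exp (-‖v‖ ^ 2)

/-- `∫∫ exp(-|v|²) dx dv` -/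
def gc (d : ℕ) : ℝ := ∫ p : V d × V d, Real.exp (-‖p.2‖ ^ 2) ∂(pm d)

lemma gv_nonneg : 0 ≤ gv d := integral_nonneg fun _ => (Real.exp_pos _).le

lemma integrable_gauss : Integrable (fun v : V d => Real.exp (-‖v‖ ^ 2)) volume := by
  have := GaussianFourier.integrable_cexp_neg_mul_sq_norm_add (V := V d) (b := 1) (by simp) 0 0
  have h2 := this.norm
  refine h2.congr (Eventually.of_forall fun v => ?_)
  simp [Complex.norm_exp]
  norm_cast

lemma integrable_gauss_pm : Integrable (fun p : V d × V d => Real.exp (-‖p.2‖ ^ 2)) (pm d) := by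
  rw [pm_eq]
  exact integrable_gauss.comp_snd _

lemma integral_gauss_ino (hd : 1 ≤ d) (a : V d) {ρ : ℝ} (hρ : 0 < ρ) :
    ∫ p : V d × V d, ino a (ρ ^ 2) p.1 * Real.exp (-‖p.2‖ ^ 2) ∂(pm d) ≤
      2 * Real.pi * ρ * gv d := by
  rw [pm_eq, integral_prod_mul (fun x => ino a (ρ ^ 2) x) (fun v : V d => Real.exp (-‖v‖ ^ 2))]
  refine mul_le_mul_of_nonneg_right ?_ gv_nonneg
  have h1 : (fun x : V d => ino a (ρ ^ 2) x) = indicator {x | S a x < ρ ^ 2} fun _ => (1 : ℝ) := by
    funext x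
    simp [ino, indicator]
  rw [h1, integral_indicator (measurableSet_lt (measurable_S a) measurable_const),
    Measure.restrict_restrict (measurableSet_lt (measurable_S a) measurable_const)]
  simp only [integral_const, smul_eq_mul, mul_one]
  rw [measureReal_restrict_apply_univ, inter_comm]
  have h2 := volume_ino hd a hρ
  exact ENNReal.toReal_le_of_le_ofReal (by positivity) h2

/-! ### The entropy -/

lemma abs_mul_log_le {y : ℝ} (hy : 0 ≤ y) :
    |y * Real.log y| ≤ 2 * y ^ (1 / 2 : ℝ) + y ^ 2 := by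
  rcases hy.eq_or_lt with h | h
  · subst h; simp
  by_cases h1 : y ≤ 1
  · have h2 := Real.abs_log_mul_self_rpow_lt y (1 / 2) h h1 (by norm_num)
    have h3 : y = y ^ (1 / 2 : ℝ) * y ^ (1 / 2 : ℝ) := by
      rw [← Real.rpow_add h]; norm_num
    have h4 : 0 ≤ y ^ (1 / 2 : ℝ) := by positivity
    have h5 : |y * Real.log y| = |Real.log y * y ^ (1 / 2 : ℝ)| * y ^ (1 / 2 : ℝ) := by
      rw [abs_mul, abs_mul, abs_of_nonneg hy, abs_of_nonneg h4]
      nth_rewrite 1 [h3]; ring
    rw [h5]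
    have h6 : (1 : ℝ) / (1 / 2) = 2 := by norm_num
    rw [h6] at h2
    nlinarith [sq_nonneg y]
  · push Not at h1
    have h2 : 0 ≤ Real.log y := Real.log_nonneg h1.le
    rw [abs_of_nonneg (by positivity)]
    have h3 : Real.log y ≤ y := (Real.log_le_sub_one_of_pos h).trans (by linarith)
    have h4 : 0 ≤ y ^ (1 / 2 : ℝ) := by positivity
    nlinarith

lemma integrable_entropy (hf : IsSolution B T f) {t : ℝ} (h0 : 0 ≤ t) (h1 : t < T) :
    Integrable (fun p : V d × V d => f t p.1 p.2 * Real.log (f t p.1 p.2)) (pm d) := by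
  obtain ⟨C, hC⟩ := hf.decay t h1 (2 * ((d : ℝ) + 1))
  have hi := (integrable_decay (d := d) ((d : ℝ) + 1) (by linarith)).const_mul
    (2 * |C| ^ (1 / 2 : ℝ) + |C| ^ 2)
  refine hi.mono' ?_ ?_
  · have hm := (hf.cont_slice h0 h1).measurable
    exact (hm.mul (Real.measurable_log.comp hm)).aestronglyMeasurable
  · refine Eventually.of_forall fun p => ?_
    have hp := hf.nonneg t h0 h1 p.1 p.2
    have hpos : 0 < 1 + ‖p.2‖ := by positivity
    have hge1 : 1 ≤ 1 + ‖p.2‖ := by linarith [norm_nonneg p.2]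
    have h2 : f t p.1 p.2 ≤ |C| * (1 + ‖p.2‖) ^ (-(2 * ((d : ℝ) + 1))) :=
      (hC t h0 le_rfl p.1 p.2).trans (by gcongr; exact le_abs_self C)
    rw [Real.norm_eq_abs]
    refine (abs_mul_log_le hp).trans ?_
    have h3 : (f t p.1 p.2) ^ (1 / 2 : ℝ) ≤ |C| ^ (1 / 2 : ℝ) * (1 + ‖p.2‖) ^ (-((d : ℝ) + 1)) := by
      calc (f t p.1 p.2) ^ (1 / 2 : ℝ) ≤
          (|C| * (1 + ‖p.2‖) ^ (-(2 * ((d : ℝ) + 1)))) ^ (1 / 2 : ℝ) := by gcongr
        _ = _ := by
          rw [Real.mul_rpow (abs_nonneg _) (by positivity), ← Real.rpow_mul hpos.le]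
          congr 2; ring
    have h4 : (f t p.1 p.2) ^ 2 ≤ |C| ^ 2 * (1 + ‖p.2‖) ^ (-((d : ℝ) + 1)) := by
      calc (f t p.1 p.2) ^ 2 ≤ (|C| * (1 + ‖p.2‖) ^ (-(2 * ((d : ℝ) + 1)))) ^ 2 := by gcongr
        _ = |C| ^ 2 * ((1 + ‖p.2‖) ^ (-(2 * ((d : ℝ) + 1)))) ^ 2 := by rw [mul_pow]
        _ ≤ _ := by
          gcongr
          rw [← Real.rpow_natCast, ← Real.rpow_mul hpos.le]
          apply Real.rpow_le_rpow_of_exponent_le hge1
          push_cast
          have : (0 : ℝ) ≤ d := Nat.cast_nonneg d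
          nlinarith
    nlinarith

/-- The pointwise inequality. -/
lemma pointwise_entropy {y K w : ℝ} (hy : 0 ≤ y) (hK : 1 < K) :
    0 ≤ y * Real.log y + y * w + Real.exp (-w) ∧
    y ≤ K * Real.exp (-w) + (y * Real.log y + y * w + Real.exp (-w)) / Real.log K := by
  have hl : 0 < Real.log K := Real.log_pos hK
  have hm : 0 < Real.exp (-w) := Real.exp_pos _
  have hZ : y ≤ y * Real.log y + y * w + Real.exp (-w) := by
    rcases hy.eq_or_lt with h | h
    · subst h; simp; exact hm.le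
    · have h1 := Real.log_le_sub_one_of_pos (div_pos hm h)
      rw [Real.log_div hm.ne' h.ne', Real.log_exp] at h1
      have h2 : y * (-w - Real.log y) ≤ y * (Real.exp (-w) / y - 1) :=
        mul_le_mul_of_nonneg_left h1 hy
      have h3 : y * (Real.exp (-w) / y - 1) = Real.exp (-w) - y := by field_simp
      rw [h3] at h2
      nlinarith
  refine ⟨hy.trans hZ, ?_⟩
  by_cases h : y ≤ K * Real.exp (-w)
  · have : 0 ≤ (y * Real.log y + y * w + Real.exp (-w)) / Real.log K :=
      div_nonneg (hy.trans hZ) hl.le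
    linarith
  · push Not at h
    have hy0 : 0 < y := lt_trans (by positivity) h
    have h1 : Real.log (K * Real.exp (-w)) ≤ Real.log y := Real.log_le_log (by positivity) h.le
    rw [Real.log_mul (by positivity) hm.ne', Real.log_exp] at h1
    have h2 : y * Real.log K ≤ y * Real.log y + y * w + Real.exp (-w) := by
      have := mul_le_mul_of_nonneg_left h1 hy
      nlinarith
    have h3 : y ≤ (y * Real.log y + y * w + Real.exp (-w)) / Real.log K := by
      rw [le_div_iff₀ hl]; exact h2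
    have : 0 ≤ K * Real.exp (-w) := by positivity
    linarith

/-- No concentration of mass. -/
lemma Mo_bound (hd : 1 ≤ d) (hf : IsSolution B T f) {H E : ℝ} (hH : entropy f 0 ≤ H)
    (hE : energy f 0 ≤ E) (a : V d) {ρ : ℝ} (hρ : 0 < ρ) (hρ1 : ρ < 1) {t : ℝ} (h0 : 0 ≤ t)
    (h1 : t < T) :
    Mo f a (ρ ^ 2) t ≤ (4 * Real.pi * gv d + 2 * (H + E + gc d)) / Real.log (1 / ρ) := by
  set K : ℝ := ρ ^ (-(1 / 2) : ℝ) with hKdef
  have hL : 0 < Real.log (1 / ρ) := Real.log_pos (by rw [lt_div_iff₀ hρ]; linarith)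
  have hK : 1 < K := Real.one_lt_rpow_of_pos_of_lt_one_of_neg hρ hρ1 (by norm_num)
  have hlogK : Real.log K = Real.log (1 / ρ) / 2 := by
    rw [hKdef, Real.log_rpow hρ, one_div ρ, Real.log_inv]; ring
  have i1 := integrable_entropy hf h0 h1
  have i2 := (weight_sq (d := d)).integrable hf h0 h1
  have i3 := integrable_gauss_pm (d := d)
  have iZ : Integrable (fun p : V d × V d => f t p.1 p.2 * Real.log (f t p.1 p.2) +
      f t p.1 p.2 * ‖p.2‖ ^ 2 + Real.exp (-‖p.2‖ ^ 2)) (pm d) := (i1.add i2).add i3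
  have i4 : Integrable (fun p : V d × V d => ino a (ρ ^ 2) p.1 * Real.exp (-‖p.2‖ ^ 2)) (pm d) := by
    refine i3.mono' ?_ (Eventually.of_forall fun p => ?_)
    · exact (((measurable_ino a _).comp measurable_fst).mul (by fun_prop)).aestronglyMeasurable
    · rw [norm_mul, Real.norm_eq_abs, Real.norm_eq_abs, abs_of_nonneg (ino_nonneg _ _ _),
        abs_of_pos (Real.exp_pos _)]
      exact mul_le_of_le_one_left (Real.exp_pos _).le (ino_le _ _ _)
  have hZint : ∫ p : V d × V d, (f t p.1 p.2 * Real.log (f t p.1 p.2) +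
      f t p.1 p.2 * ‖p.2‖ ^ 2 + Real.exp (-‖p.2‖ ^ 2)) ∂(pm d) ≤ H + E + gc d := by
    have i12 : Integrable (fun p : V d × V d => f t p.1 p.2 * Real.log (f t p.1 p.2) +
      f t p.1 p.2 * ‖p.2‖ ^ 2) (pm d) := i1.add i2
    rw [integral_add i12 i3, integral_add i1 i2]
    have e1 : ∫ p : V d × V d, f t p.1 p.2 * Real.log (f t p.1 p.2) ∂(pm d) = entropy f t := rfl
    have e2 : ∫ p : V d × V d, f t p.1 p.2 * ‖p.2‖ ^ 2 ∂(pm d) = energy f t := rfl
    rw [e1, e2, hf.energy_eq h0 h1]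
    have := hf.entropy_le t h0 h1
    unfold gc
    linarith
  have hmain : Mo f a (ρ ^ 2) t ≤ K * (2 * Real.pi * ρ * gv d) + (H + E + gc d) / Real.log K := by
    calc Mo f a (ρ ^ 2) t ≤ ∫ p : V d × V d, (K * (ino a (ρ ^ 2) p.1 * Real.exp (-‖p.2‖ ^ 2)) +
          (f t p.1 p.2 * Real.log (f t p.1 p.2) +
            f t p.1 p.2 * ‖p.2‖ ^ 2 + Real.exp (-‖p.2‖ ^ 2)) / Real.log K) ∂(pm d) := by
          refine integral_mono ((weight_ino a _).integrable hf h0 h1)
            ((i4.const_mul K).add (iZ.div_const _)) fun p => ?_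
          have hp := hf.nonneg t h0 h1 p.1 p.2
          obtain ⟨hZ0, hZ1⟩ := pointwise_entropy (w := ‖p.2‖ ^ 2) hp hK
          have hl : 0 < Real.log K := Real.log_pos hK
          simp only
          unfold ino
          split_ifs
          · simpa using hZ1
          · simp only [mul_zero, zero_mul, zero_add]
            exact div_nonneg hZ0 hl.le
      _ = K * (∫ p : V d × V d, ino a (ρ ^ 2) p.1 * Real.exp (-‖p.2‖ ^ 2) ∂(pm d)) +
          (∫ p : V d × V d, (f t p.1 p.2 * Real.log (f t p.1 p.2) +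
            f t p.1 p.2 * ‖p.2‖ ^ 2 + Real.exp (-‖p.2‖ ^ 2)) ∂(pm d)) / Real.log K := by
          rw [integral_add (i4.const_mul K) (iZ.div_const _), integral_const_mul,
            integral_div]
      _ ≤ _ := by
          have hl : 0 < Real.log K := Real.log_pos hK
          have := integral_gauss_ino hd a hρ
          gcongr
  refine hmain.trans ?_
  rw [hlogK]
  have h5 : K * ρ = ρ ^ (1 / 2 : ℝ) := by
    rw [hKdef]
    nth_rewrite 2 [← Real.rpow_one ρ]
    rw [← Real.rpow_add hρ]; norm_num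
  have h6 := Real.abs_log_mul_self_rpow_lt ρ (1 / 2) hρ hρ1.le (by norm_num)
  have h7 : ρ ^ (1 / 2 : ℝ) ≤ 2 / Real.log (1 / ρ) := by
    rw [le_div_iff₀ hL]
    rw [abs_mul, abs_of_nonneg (by positivity : 0 ≤ ρ ^ (1 / 2 : ℝ))] at h6
    have h8 : Real.log (1 / ρ) = |Real.log ρ| := by
      rw [one_div, Real.log_inv, abs_of_neg (Real.log_neg hρ hρ1)]
    rw [h8]
    have h9 : (1 : ℝ) / (1 / 2) = 2 := by norm_num
    rw [h9] at h6
    linarith
  calc K * (2 * Real.pi * ρ * gv d) + (H + E + gc d) / (Real.log (1 / ρ) / 2) =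
      2 * Real.pi * gv d * (K * ρ) + 2 * (H + E + gc d) / Real.log (1 / ρ) := by
        field_simp
    _ ≤ 2 * Real.pi * gv d * (2 / Real.log (1 / ρ)) + 2 * (H + E + gc d) / Real.log (1 / ρ) := by
        rw [h5]
        have := gv_nonneg (d := d)
        gcongr
    _ = _ := by ring

lemma massNear_le (hf : IsSolution B T f) (a : V d) {r : ℝ} (hr : 0 < r) {t : ℝ} (h0 : 0 ≤ t)
    (h1 : t < T) : massNear f a r t ≤ Mo f a ((2 * r) ^ 2) t := by
  unfold massNear Mo pm
  rw [← integral_indicator ((measurableSet_cube.inter (measurableSet_near a r)).prod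
    MeasurableSet.univ), ← integral_indicator (measurableSet_cube.prod MeasurableSet.univ)]
  have i1 : Integrable (fun p : V d × V d => f t p.1 p.2)
      ((volume : Measure (V d × V d)).restrict (cube d ×ˢ univ)) := by
    have := (weight_one (d := d)).integrable hf h0 h1
    simpa [pm] using this
  have i2 : Integrable (fun p : V d × V d => f t p.1 p.2 * ino a ((2 * r) ^ 2) p.1)
      ((volume : Measure (V d × V d)).restrict (cube d ×ˢ univ)) :=
    (weight_ino a _).integrable hf h0 h1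
  refine integral_mono ?_ ?_ ?_
  · rw [integrable_indicator_iff ((measurableSet_cube.inter (measurableSet_near a r)).prod
      MeasurableSet.univ)]
    exact IntegrableOn.mono_set i1 (prod_mono_left inter_subset_left)
  · rw [integrable_indicator_iff (measurableSet_cube.prod MeasurableSet.univ)]
    exact i2
  · intro p
    simp only [indicator]
    have hp := hf.nonneg t h0 h1 p.1 p.2
    by_cases hc : p.1 ∈ cube d
    · by_cases hn : p.1 ∈ near a r
      · have hS : S a p.1 < (2 * r) ^ 2 :=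
          lt_of_le_of_lt (S_le_of_near hn hr.le) (by nlinarith)
        simp [hc, hn, ino, hS]
      · have : 0 ≤ f t p.1 p.2 * ino a ((2 * r) ^ 2) p.1 := mul_nonneg hp (ino_nonneg _ _ _)
        simp [hc, hn, this]
    · simp [hc]

end Pool.Agent.H82.BZ
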