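import Pool.Agent.H82.BZ.Entropy

open MeasureTheory Set Filter Topology

noncomputable section

namespace Pool.Agent.H82.BZ

variable {d : ℕ} {B : ℝ → ℝ → ℝ} {T : ℝ} {f : ℝ → V d → V d → ℝ}

open Classical in
/-- indicator of the ball -/
def inn (a : V d) (r : ℝ) (x : V d) : ℝ := if x ∈ near a r then 1 else 0

lemma weight_inn_sq (a : V d) (r : ℝ) :
    Weight fun p : V d × V d => inn a r p.1 * ‖p.2‖ ^ 2 :=
  weight_mul (k := fun v : V d => ‖v‖ ^ 2) (c := 1)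
    (Measurable.ite (measurableSet_near a r) measurable_const measurable_const) (by fun_prop)
    (fun x _ => by unfold inn; split_ifs <;> simp)
    (fun v => by rw [abs_of_nonneg (sq_nonneg _)]; exact norm_sq_le_rpow_two v)

lemma energyNear_eq (a : V d) (r t : ℝ) :
    energyNear f a r t = ∫ p, f t p.1 p.2 * (inn a r p.1 * ‖p.2‖ ^ 2) ∂(pm d) := by
  unfold energyNear pm
  rw [← integral_indicator ((measurableSet_cube.inter (measurableSet_near a r)).prod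
    MeasurableSet.univ), ← integral_indicator (measurableSet_cube.prod MeasurableSet.univ)]
  congr 1
  funext p
  simp only [indicator]
  by_cases hc : p.1 ∈ cube d
  · by_cases hn : p.1 ∈ near a r
    · simp [hc, hn, inn]
    · simp [hc, hn, inn]
  · simp [hc]

lemma energyNear_intervalIntegrable (hf : IsSolution B T f) (a : V d) (r : ℝ) {t₁ t₂ : ℝ}
    (h0 : 0 ≤ t₁) (h1 : t₁ ≤ t₂) (h2 : t₂ < T) :
    IntervalIntegrable (fun t => energyNear f a r t) volume t₁ t₂ := by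
  simp only [energyNear_eq]
  exact (weight_inn_sq a r).intervalIntegrable hf h0 h1 h2

lemma integral_energyNear_le (hf : IsSolution B T f) (a : V d) {r : ℝ} (hr : 0 ≤ r) {t₁ t₂ : ℝ}
    (h0 : 0 ≤ t₁) (h1 : t₁ ≤ t₂) (h2 : t₂ < T) :
    ∫ t in t₁..t₂, energyNear f a r t ≤ ∫ t in t₁..t₂, Eb f a (r ^ 2) t := by
  refine intervalIntegral.integral_mono_on h1 (energyNear_intervalIntegrable hf a r h0 h1 h2)
    ((weight_inb_sq a (r ^ 2)).intervalIntegrable hf h0 h1 h2) fun t ht => ?_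
  exact energyNear_le hf a hr (h0.trans ht.1) (lt_of_le_of_lt ht.2 h2)

lemma Eb_mono (hf : IsSolution B T f) (a : V d) {s s' : ℝ} (hs : s ≤ s') {t : ℝ} (h0 : 0 ≤ t)
    (h1 : t < T) : Eb f a s t ≤ Eb f a s' t := by
  refine Weight.mono hf (weight_inb_sq a s) (weight_inb_sq a s') ?_ h0 h1
  intro p _
  refine mul_le_mul_of_nonneg_right ?_ (sq_nonneg _)
  unfold inb
  split_ifs with h h' h'
  · exact le_rfl
  · exact absurd (h.trans hs) h'
  · norm_num
  · exact le_rfl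

lemma mass_nonneg (hf : IsSolution B T f) (hT : 0 < T) : 0 ≤ mass f 0 := by
  have := Weight.nonneg hf (w := fun _ => 1) (fun _ _ => zero_le_one) le_rfl hT
  simpa [mass, phase_eq] using this

lemma energy_nonneg (hf : IsSolution B T f) (hT : 0 < T) : 0 ≤ energy f 0 :=
  Weight.nonneg hf (w := fun p => ‖p.2‖ ^ 2) (fun _ _ => sq_nonneg _) le_rfl hT

/-- Part 1: the virial bound. -/
lemma part_one (hf : IsSolution B T f) (a : V d) {r t₁ t₂ : ℝ} (hr : 0 < r) (hr1 : r ≤ 1 / 7)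
    (h0 : 0 ≤ t₁) (h1 : t₁ ≤ t₂) (h2 : t₂ < T) :
    ∫ t in t₁..t₂, energyNear f a r t ≤
      16 * r * (Real.sqrt (mass f 0 * energy f 0) + 8 * energy f 0 * (t₂ - t₁)) := by
  have hpi := Real.pi_pos
  have hpi2 := Real.pi_lt_d2
  refine (integral_energyNear_le hf a hr.le h0 h1 h2).trans ?_
  have hρ : 2 * r ≤ 1 / Real.pi := by
    rw [le_div_iff₀ hpi]; nlinarith
  have h := Eb_bound hf hr hρ (by field_simp; norm_num) a (m := mass f 0)
    (fun t ht0 ht1 => Mo_le hf a _ ht0 ht1) h0 h1 h2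
  refine h.trans ?_
  have hE := energy_nonneg hf (lt_of_le_of_lt (h0.trans h1) h2)
  have h3 : 5 / (1 / Real.pi) * energy f 0 * (t₂ - t₁) ≤ 16 * energy f 0 * (t₂ - t₁) := by
    have : 5 / (1 / Real.pi) ≤ 16 := by
      rw [div_div_eq_mul_div, div_one]; linarith
    have h4 : 0 ≤ t₂ - t₁ := by linarith
    gcongr
  calc 8 * r * (2 * Real.sqrt (mass f 0 * energy f 0) +
        5 / (1 / Real.pi) * energy f 0 * (t₂ - t₁)) ≤
      8 * r * (2 * Real.sqrt (mass f 0 * energy f 0) + 16 * energy f 0 * (t₂ - t₁)) := by gcongr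
    _ = _ := by ring

/-- The constant of the entropy bound. -/
def C₁ (d : ℕ) (E H : ℝ) : ℝ := |4 * Real.pi * gv d + 2 * (H + E + gc d)|

lemma Mo_bound' (hd : 1 ≤ d) (hf : IsSolution B T f) {H E : ℝ} (hH : entropy f 0 ≤ H)
    (hE : energy f 0 ≤ E) (a : V d) {ρ : ℝ} (hρ : 0 < ρ) (hρ1 : ρ < 1) {t : ℝ} (h0 : 0 ≤ t)
    (h1 : t < T) :
    Mo f a (ρ ^ 2) t ≤ C₁ d E H / Real.log (1 / ρ) := by
  refine (Mo_bound hd hf hH hE a hρ hρ1 h0 h1).trans ?_
  have hL : 0 < Real.log (1 / ρ) := Real.log_pos (by rw [lt_div_iff₀ hρ]; linarith)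
  unfold C₁
  gcongr
  exact le_abs_self _

/-- Part 3, for `Eb`. -/
lemma ballistic (hd : 1 ≤ d) (hf : IsSolution B T f) {H E : ℝ} (hH : entropy f 0 ≤ H)
    (hE : energy f 0 ≤ E) (a : V d) {A τ t₁ t₂ : ℝ} (hA : 1 ≤ A) (hτ : 0 < τ) (hτ1 : τ ≤ 1 / 10)
    (hAτ : 4 * A ^ 2 * τ * Real.log (1 / τ) ≤ 1) (h0 : 0 ≤ t₁) (h1 : t₁ ≤ t₂) (h2 : t₂ < T)
    (h3 : t₂ - t₁ ≤ τ) :
    ∫ t in t₁..t₂, Eb f a ((A * τ) ^ 2) t ≤
      8 * (2 * Real.sqrt (2 * C₁ d E H * E) + 3 * E) * A * τ / Real.sqrt (Real.log (1 / τ)) := by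
  set L := Real.log (1 / τ) with hLdef
  have hE0 := energy_nonneg hf (lt_of_le_of_lt (h0.trans h1) h2)
  have hE1 : 0 ≤ E := hE0.trans hE
  have hpi := Real.pi_pos
  have hL1 : 1 ≤ L := by
    rw [hLdef, Real.le_log_iff_exp_le (by positivity)]
    have : Real.exp 1 < 3 := lt_trans Real.exp_one_lt_d9 (by norm_num)
    have : (10 : ℝ) ≤ 1 / τ := by rw [le_div_iff₀ hτ]; linarith
    linarith
  have hL0 : 0 < L := by linarith
  have hsL : 1 ≤ Real.sqrt L := by rwa [Real.one_le_sqrt]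
  have hsL0 : 0 < Real.sqrt L := by linarith
  have hA0 : 0 < A := by linarith
  set ρ := 2 * (A * τ) * Real.sqrt L with hρdef
  have hρ0 : 0 < ρ := by positivity
  have hρτ : ρ ≤ Real.sqrt τ := by
    apply Real.le_sqrt_of_sq_le
    rw [hρdef, mul_pow, mul_pow, mul_pow, Real.sq_sqrt hL0.le]
    have : 2 ^ 2 * (A ^ 2 * τ ^ 2) * L = (4 * A ^ 2 * τ * L) * τ := by ring
    rw [this]
    exact mul_le_of_le_one_left hτ.le hAτ
  have hπρ : Real.pi * ρ ≤ 1 := by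
    have h4 : Real.sqrt τ ≤ Real.sqrt (1 / 10) := Real.sqrt_le_sqrt hτ1
    have h5 : Real.sqrt (1 / 10) ≤ 0.3163 := by
      rw [Real.sqrt_le_left (by norm_num)]; norm_num
    have h6 : Real.pi < 3.1416 := Real.pi_lt_d4
    nlinarith
  have hsτ : Real.sqrt τ < 1 := by
    rw [Real.sqrt_lt' (by norm_num)]; linarith
  have hρ1 : ρ < 1 := lt_of_le_of_lt hρτ hsτ
  have hlogρ : L / 2 ≤ Real.log (1 / ρ) := by
    have h4 : Real.log ρ ≤ Real.log (Real.sqrt τ) := Real.log_le_log hρ0 hρτ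
    rw [Real.log_sqrt hτ.le] at h4
    rw [hLdef, one_div, one_div, Real.log_inv, Real.log_inv]
    linarith
  have hC0 : 0 ≤ C₁ d E H := abs_nonneg _
  have hm : ∀ t, 0 ≤ t → t < T → Mo f a (ρ ^ 2) t ≤ 2 * C₁ d E H / L := by
    intro t ht0 ht1
    refine (Mo_bound' hd hf hH hE a hρ0 hρ1 ht0 ht1).trans ?_
    calc C₁ d E H / Real.log (1 / ρ) ≤ C₁ d E H / (L / 2) := by gcongr
      _ = _ := by field_simp
  have hrρ : 2 * (A * τ) ≤ ρ := by
    rw [hρdef]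
    have : 0 ≤ 2 * (A * τ) := by positivity
    nlinarith
  have hr : 0 < A * τ := by positivity
  have h := Eb_bound hf hr hrρ hπρ a hm h0 h1 h2
  refine h.trans ?_
  have h4 : Real.sqrt (2 * C₁ d E H / L * energy f 0) ≤
      Real.sqrt (2 * C₁ d E H * E) / Real.sqrt L := by
    rw [← Real.sqrt_div' _ hL0.le]
    apply Real.sqrt_le_sqrt
    rw [div_mul_eq_mul_div]
    gcongr
  have h5 : 5 / ρ * energy f 0 * (t₂ - t₁) ≤ 3 * E / Real.sqrt L := by
    have h6 : 0 ≤ t₂ - t₁ := by linarith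
    calc 5 / ρ * energy f 0 * (t₂ - t₁) ≤ 5 / ρ * E * τ := by gcongr
      _ = 5 / (2 * A) * E / Real.sqrt L := by rw [hρdef]; field_simp
      _ ≤ 3 * E / Real.sqrt L := by
        have : 5 / (2 * A) ≤ 3 := by rw [div_le_iff₀ (by positivity)]; linarith
        gcongr
  calc 8 * (A * τ) * (2 * Real.sqrt (2 * C₁ d E H / L * energy f 0) +
        5 / ρ * energy f 0 * (t₂ - t₁)) ≤
      8 * (A * τ) * (2 * (Real.sqrt (2 * C₁ d E H * E) / Real.sqrt L) + 3 * E / Real.sqrt L) := by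
        gcongr
    _ = _ := by field_simp

/-- Part 4: Markov. -/
lemma few_times (hd : 1 ≤ d) (hf : IsSolution B T f) {H E : ℝ} (hH : entropy f 0 ≤ H)
    (hE : energy f 0 ≤ E) (a : V d) {A τ e : ℝ} (hA : 1 ≤ A) (hτ : 0 < τ) (hτ1 : τ ≤ 1 / 10)
    (hAτ : 4 * A ^ 2 * τ * Real.log (1 / τ) ≤ 1) (he : 0 < e) :
    volume {t : ℝ | 0 ≤ t ∧ T - τ ≤ t ∧ t < T ∧ e ≤ energyNear f a (A * (T - t)) t} ≤
      ENNReal.ofReal (8 * (2 * Real.sqrt (2 * C₁ d E H * E) + 3 * E) * A * τ /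
        Real.sqrt (Real.log (1 / τ)) / e) := by
  set M := 8 * (2 * Real.sqrt (2 * C₁ d E H * E) + 3 * E) * A * τ /
        Real.sqrt (Real.log (1 / τ)) with hM
  set s₀ := max 0 (T - τ) with hs₀
  let U : ℕ → Set ℝ := fun n => {t : ℝ | s₀ ≤ t ∧ t ≤ T - 1 / ((n : ℝ) + 1) ∧
    e ≤ Eb f a ((A * τ) ^ 2) t}
  have hsub : {t : ℝ | 0 ≤ t ∧ T - τ ≤ t ∧ t < T ∧ e ≤ energyNear f a (A * (T - t)) t} ⊆
      ⋃ n, U n := by
    rintro t ⟨ht0, ht1, ht2, ht3⟩
    obtain ⟨n, hn⟩ := exists_nat_one_div_lt (sub_pos.mpr ht2)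
    rw [mem_iUnion]
    refine ⟨n, max_le ht0 ht1, by linarith, ?_⟩
    have hA0 : 0 ≤ A := by linarith
    have h4 : 0 ≤ A * (T - t) := mul_nonneg hA0 (by linarith)
    have h5 : A * (T - t) ≤ A * τ := mul_le_mul_of_nonneg_left (by linarith) hA0
    calc e ≤ energyNear f a (A * (T - t)) t := ht3
      _ ≤ Eb f a ((A * (T - t)) ^ 2) t := energyNear_le hf a h4 ht0 ht2
      _ ≤ _ := Eb_mono hf a (by gcongr) ht0 ht2
  have hmono : Monotone U := by
    intro m n hmn t ht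
    refine ⟨ht.1, ht.2.1.trans ?_, ht.2.2⟩
    have : (1 : ℝ) / ((n : ℝ) + 1) ≤ 1 / ((m : ℝ) + 1) := by
      apply one_div_le_one_div_of_le (by positivity)
      have : (m : ℝ) ≤ n := by exact_mod_cast hmn
      linarith
    linarith
  refine (measure_mono hsub).trans ?_
  rw [hmono.measure_iUnion]
  refine iSup_le fun n => ?_
  set t₂ := T - 1 / ((n : ℝ) + 1) with ht₂
  have hpos : (0 : ℝ) < 1 / ((n : ℝ) + 1) := by positivity
  have ht₂T : t₂ < T := by linarith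
  by_cases hle : s₀ ≤ t₂
  swap
  · have : U n = ∅ := by
      ext t
      simp only [U, mem_ofPred_eq, mem_empty_iff_false, iff_false, not_and]
      intro h1 h2
      exact absurd (h1.trans h2) hle
    rw [this]; simp
  have hs0 : 0 ≤ s₀ := le_max_left _ _
  have hb := ballistic hd hf hH hE a hA hτ hτ1 hAτ hs0 hle ht₂T
    (by have := le_max_right 0 (T - τ); linarith)
  rw [← hM] at hb
  have hint := (weight_inb_sq a ((A * τ) ^ 2)).intervalIntegrable hf hs0 hle ht₂T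
  rw [intervalIntegral.integral_of_le hle] at hb
  have hint2 : Integrable (fun t => Eb f a ((A * τ) ^ 2) t) (volume.restrict (Ioc s₀ t₂)) := by
    have := hint.1
    exact this
  have hnn : 0 ≤ᵐ[volume.restrict (Ioc s₀ t₂)] fun t => Eb f a ((A * τ) ^ 2) t := by
    filter_upwards [ae_restrict_mem measurableSet_Ioc] with t ht
    exact Eb_nonneg hf a _ (hs0.trans ht.1.le) (lt_of_le_of_lt ht.2 ht₂T)
  have hmk := mul_meas_ge_le_integral_of_nonneg hnn hint2 e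
  have hcont : ContinuousOn (fun t => Eb f a ((A * τ) ^ 2) t) (Icc 0 t₂) :=
    (weight_inb_sq a ((A * τ) ^ 2)).continuousOn hf ht₂T
  have hUeq : volume (U n) ≤
      (volume.restrict (Ioc s₀ t₂)) {t | e ≤ Eb f a ((A * τ) ^ 2) t} := by
    have h6 : U n ⊆ {s₀} ∪ (({t | e ≤ Eb f a ((A * τ) ^ 2) t}) ∩ Ioc s₀ t₂) := by
      rintro t ⟨h7, h8, h9⟩
      rcases h7.eq_or_lt with h | h
      · left; exact h.symm
      · right; exact ⟨h9, h, h8⟩
    calc volume (U n) ≤ _ := measure_mono h6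
      _ ≤ volume {s₀} + volume (({t | e ≤ Eb f a ((A * τ) ^ 2) t}) ∩ Ioc s₀ t₂) :=
        measure_union_le _ _
      _ = volume (({t | e ≤ Eb f a ((A * τ) ^ 2) t}) ∩ Ioc s₀ t₂) := by simp
      _ ≤ _ := Measure.le_restrict_apply _ _
  refine hUeq.trans ?_
  have hfin : (volume.restrict (Ioc s₀ t₂)) {t | e ≤ Eb f a ((A * τ) ^ 2) t} ≠ ⊤ :=
    measure_ne_top _ _
  rw [← ENNReal.ofReal_toReal hfin]
  apply ENNReal.ofReal_le_ofReal
  rw [le_div_iff₀ he]
  calc _ = e * (volume.restrict (Ioc s₀ t₂)).real {t | e ≤ Eb f a ((A * τ) ^ 2) t} := by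
        rw [mul_comm]; rfl
    _ ≤ _ := hmk.trans hb

end Pool.Agent.H82.BZ
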