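import Pool.Agent.H82.BZ.Coll

open MeasureTheory Set Filter Topology

noncomputable section

namespace Pool.Agent.H82.BZ

variable {d : ℕ}

lemma measurableSet_cube : MeasurableSet (cube d) := by
  have : cube d = ⋂ i, {x : V d | 0 ≤ x i ∧ x i < 1} := by
    ext x; simp [cube]
  rw [this]
  refine MeasurableSet.iInter fun i => ?_
  have h : Measurable fun x : V d => x i :=
    ((EuclideanSpace.proj i : V d →L[ℝ] ℝ).continuous).measurable
  exact (measurableSet_le measurable_const h).inter (measurableSet_lt h measurable_const)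

lemma cube_subset_ball : cube d ⊆ Metric.closedBall 0 (Real.sqrt d) := by
  intro x hx
  rw [mem_closedBall_zero_iff, EuclideanSpace.norm_eq]
  apply Real.sqrt_le_sqrt
  calc ∑ i, ‖x i‖ ^ 2 ≤ ∑ _i : Fin d, (1 : ℝ) := by
        refine Finset.sum_le_sum fun i _ => ?_
        have := hx i
        rw [Real.norm_eq_abs, abs_of_nonneg this.1]
        nlinarith
    _ = d := by simp

lemma volume_cube_lt_top : (volume : Measure (V d)) (cube d) < ⊤ :=
  lt_of_le_of_lt (measure_mono cube_subset_ball) measure_closedBall_lt_top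

instance : IsFiniteMeasure ((volume : Measure (V d)).restrict (cube d)) :=
  ⟨by rw [Measure.restrict_apply_univ]; exact volume_cube_lt_top⟩

/-- The measure on the phase space. -/
def pm (d : ℕ) : Measure (V d × V d) :=
  (volume : Measure (V d × V d)).restrict (cube d ×ˢ (univ : Set (V d)))

lemma phase_eq (g : V d → V d → ℝ) : phase g = ∫ p, g p.1 p.2 ∂(pm d) := rfl

lemma pm_eq : pm d = ((volume : Measure (V d)).restrict (cube d)).prod volume := by
  unfold pm
  rw [Measure.volume_eq_prod, ← Measure.prod_restrict, Measure.restrict_univ]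

lemma ae_mem_cube : ∀ᵐ p ∂(pm d), p.1 ∈ cube d := by
  unfold pm
  filter_upwards [ae_restrict_mem (measurableSet_cube.prod MeasurableSet.univ)] with p hp
  exact hp.1

/-- integrability of functions of rapid decay -/
lemma integrable_decay (q : ℝ) (hq : (d : ℝ) < q) :
    Integrable (fun p : V d × V d => (1 + ‖p.2‖) ^ (-q)) (pm d) := by
  rw [pm_eq]
  have h : Integrable (fun v : V d => (1 + ‖v‖) ^ (-q)) volume := by
    apply integrable_one_add_norm
    simpa using hq
  exact h.comp_snd _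

section Solution

variable {B : ℝ → ℝ → ℝ} {T : ℝ} {f : ℝ → V d → V d → ℝ}

lemma IsSolution.cont_slice (hf : IsSolution B T f) {t : ℝ} (h0 : 0 ≤ t) (h1 : t < T) :
    Continuous fun p : V d × V d => f t p.1 p.2 := by
  have h := hf.cont
  rw [← continuousOn_univ]
  have h2 : ContinuousOn (fun p : V d × V d => ((t, p.1, p.2) : ℝ × V d × V d)) univ := by
    fun_prop
  exact h.comp h2 fun p _ => ⟨⟨h0, h1⟩, mem_univ _⟩

/-- Weights of at most quadratic growth in the velocity. -/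
structure Weight (w : V d × V d → ℝ) : Prop where
  meas : Measurable w
  bound : ∃ K : ℝ, 0 ≤ K ∧ ∀ p, p.1 ∈ cube d → |w p| ≤ K * (1 + ‖p.2‖) ^ (2 : ℝ)

lemma Weight.dom (hf : IsSolution B T f) {w : V d × V d → ℝ} (hw : Weight w) {T' : ℝ}
    (hT : T' < T) : ∃ C : ℝ, 0 ≤ C ∧ ∀ t, 0 ≤ t → t ≤ T' → ∀ p : V d × V d, p.1 ∈ cube d →
      ‖f t p.1 p.2 * w p‖ ≤ C * (1 + ‖p.2‖) ^ (-((d : ℝ) + 1)) := by
  obtain ⟨K, hK0, hK⟩ := hw.bound
  obtain ⟨C, hC⟩ := hf.decay T' hT ((d : ℝ) + 3)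
  refine ⟨|C| * K, by positivity, fun t h0 h1 p hp => ?_⟩
  have h2 : 0 ≤ f t p.1 p.2 := hf.nonneg t h0 (lt_of_le_of_lt h1 hT) _ _
  have h3 : f t p.1 p.2 ≤ |C| * (1 + ‖p.2‖) ^ (-((d : ℝ) + 3)) :=
    (hC t h0 h1 p.1 p.2).trans (by gcongr; exact le_abs_self C)
  have hpos : 0 < 1 + ‖p.2‖ := by positivity
  rw [norm_mul, Real.norm_eq_abs, Real.norm_eq_abs, abs_of_nonneg h2]
  calc f t p.1 p.2 * |w p| ≤
      (|C| * (1 + ‖p.2‖) ^ (-((d : ℝ) + 3))) * (K * (1 + ‖p.2‖) ^ (2 : ℝ)) := by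
        gcongr
        exact hK p hp
    _ = |C| * K * ((1 + ‖p.2‖) ^ (-((d : ℝ) + 3)) * (1 + ‖p.2‖) ^ (2 : ℝ)) := by ring
    _ = |C| * K * (1 + ‖p.2‖) ^ (-((d : ℝ) + 1)) := by
        rw [← Real.rpow_add hpos]; congr 2; ring

lemma Weight.integrable (hf : IsSolution B T f) {w : V d × V d → ℝ} (hw : Weight w) {t : ℝ}
    (h0 : 0 ≤ t) (h1 : t < T) : Integrable (fun p => f t p.1 p.2 * w p) (pm d) := by
  obtain ⟨C, hC0, hC⟩ := hw.dom hf h1
  have hi := (integrable_decay (d := d) ((d : ℝ) + 1) (by linarith)).const_mul C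
  refine hi.mono' ?_ ?_
  · exact ((hf.cont_slice h0 h1).measurable.mul hw.meas).aestronglyMeasurable
  · filter_upwards [ae_mem_cube] with p hp
    exact hC t h0 le_rfl p hp

lemma Weight.continuousOn (hf : IsSolution B T f) {w : V d × V d → ℝ} (hw : Weight w) {T' : ℝ}
    (hT : T' < T) : ContinuousOn (fun t => ∫ p, f t p.1 p.2 * w p ∂(pm d)) (Icc 0 T') := by
  obtain ⟨C, hC0, hC⟩ := hw.dom hf hT
  have hi := (integrable_decay (d := d) ((d : ℝ) + 1) (by linarith)).const_mul C
  refine continuousOn_of_dominated ?_ ?_ hi ?_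
  · intro t ht
    exact ((hf.cont_slice ht.1 (lt_of_le_of_lt ht.2 hT)).measurable.mul
      hw.meas).aestronglyMeasurable
  · intro t ht
    filter_upwards [ae_mem_cube] with p hp
    exact hC t ht.1 ht.2 p hp
  · refine Eventually.of_forall fun p => ?_
    have h2 : ContinuousOn (fun t : ℝ => ((t, p.1, p.2) : ℝ × V d × V d)) (Icc 0 T') := by
      fun_prop
    have h3 : ContinuousOn (fun t : ℝ => f t p.1 p.2) (Icc 0 T') :=
      hf.cont.comp h2 fun t ht => ⟨⟨ht.1, lt_of_le_of_lt ht.2 hT⟩, mem_univ _⟩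
    exact h3.mul continuousOn_const

lemma Weight.intervalIntegrable (hf : IsSolution B T f) {w : V d × V d → ℝ} (hw : Weight w)
    {t₁ t₂ : ℝ} (h0 : 0 ≤ t₁) (h1 : t₁ ≤ t₂) (h2 : t₂ < T) :
    IntervalIntegrable (fun t => ∫ p, f t p.1 p.2 * w p ∂(pm d)) volume t₁ t₂ := by
  apply ContinuousOn.intervalIntegrable_of_Icc h1
  exact (hw.continuousOn hf h2).mono (Icc_subset_Icc_left h0)

lemma Weight.mono (hf : IsSolution B T f) {w w' : V d × V d → ℝ} (hw : Weight w)
    (hw' : Weight w') (hle : ∀ p, p.1 ∈ cube d → w p ≤ w' p) {t : ℝ} (h0 : 0 ≤ t) (h1 : t < T) :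
    ∫ p, f t p.1 p.2 * w p ∂(pm d) ≤ ∫ p, f t p.1 p.2 * w' p ∂(pm d) := by
  refine integral_mono_ae (hw.integrable hf h0 h1) (hw'.integrable hf h0 h1) ?_
  filter_upwards [ae_mem_cube] with p hp
  exact mul_le_mul_of_nonneg_left (hle p hp) (hf.nonneg t h0 h1 _ _)

lemma Weight.nonneg (hf : IsSolution B T f) {w : V d × V d → ℝ}
    (hle : ∀ p, p.1 ∈ cube d → 0 ≤ w p) {t : ℝ} (h0 : 0 ≤ t) (h1 : t < T) :
    0 ≤ ∫ p, f t p.1 p.2 * w p ∂(pm d) := by
  refine integral_nonneg_of_ae ?_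
  filter_upwards [ae_mem_cube] with p hp
  exact mul_nonneg (hf.nonneg t h0 h1 _ _) (hle p hp)

lemma one_le_rpow_two (v : V d) : 1 ≤ (1 + ‖v‖) ^ (2 : ℝ) := by
  have : 0 ≤ ‖v‖ := norm_nonneg v
  rw [Real.rpow_two]; nlinarith

lemma norm_le_rpow_two (v : V d) : ‖v‖ ≤ (1 + ‖v‖) ^ (2 : ℝ) := by
  have : 0 ≤ ‖v‖ := norm_nonneg v
  rw [Real.rpow_two]; nlinarith

lemma norm_sq_le_rpow_two (v : V d) : ‖v‖ ^ 2 ≤ (1 + ‖v‖) ^ (2 : ℝ) := by
  have : 0 ≤ ‖v‖ := norm_nonneg v
  rw [Real.rpow_two]; nlinarith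

/-- A bounded function of `x` times a function of the velocity of at most quadratic growth. -/
lemma weight_mul {h : V d → ℝ} {k : V d → ℝ} (hm : Measurable h) (km : Measurable k)
    {c : ℝ} (hc : ∀ x ∈ cube d, |h x| ≤ c) (hk : ∀ v, |k v| ≤ (1 + ‖v‖) ^ (2 : ℝ)) :
    Weight fun p : V d × V d => h p.1 * k p.2 where
  meas := (hm.comp measurable_fst).mul (km.comp measurable_snd)
  bound := ⟨|c|, abs_nonneg c, fun p hp => by
    rw [abs_mul]
    exact mul_le_mul ((hc _ hp).trans (le_abs_self c)) (hk _) (abs_nonneg _) (abs_nonneg _)⟩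

lemma Weight.const_mul {w : V d × V d → ℝ} (hw : Weight w) (c : ℝ) :
    Weight fun p => c * w p where
  meas := hw.meas.const_mul c
  bound := by
    obtain ⟨K, hK0, hK⟩ := hw.bound
    refine ⟨|c| * K, by positivity, fun p hp => ?_⟩
    rw [abs_mul, mul_assoc]
    exact mul_le_mul_of_nonneg_left (hK p hp) (abs_nonneg c)

lemma Weight.add {w w' : V d × V d → ℝ} (hw : Weight w) (hw' : Weight w') :
    Weight fun p => w p + w' p where
  meas := hw.meas.add hw'.meas
  bound := by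
    obtain ⟨K, hK0, hK⟩ := hw.bound
    obtain ⟨K', hK0', hK'⟩ := hw'.bound
    refine ⟨K + K', by positivity, fun p hp => ?_⟩
    calc |w p + w' p| ≤ |w p| + |w' p| := abs_add_le _ _
      _ ≤ K * (1 + ‖p.2‖) ^ (2 : ℝ) + K' * (1 + ‖p.2‖) ^ (2 : ℝ) :=
        add_le_add (hK p hp) (hK' p hp)
      _ = _ := by ring

lemma Weight.sub {w w' : V d × V d → ℝ} (hw : Weight w) (hw' : Weight w') :
    Weight fun p => w p - w' p := by
  have := hw.add (hw'.const_mul (-1))
  simpa [sub_eq_add_neg] using this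

lemma Weight.sum {ι : Type*} (s : Finset ι) {w : ι → V d × V d → ℝ} (hw : ∀ i, Weight (w i)) :
    Weight fun p => ∑ i ∈ s, w i p := by
  classical
  induction s using Finset.induction_on with
  | empty =>
    refine ⟨by simp only [Finset.sum_empty]; exact measurable_const, 0, le_rfl, fun p _ => ?_⟩
    simp
  | insert i s hi ih =>
    simp only [Finset.sum_insert hi]
    exact (hw i).add ih

/-! ### Conservation of mass and energy -/

lemma weight_one : Weight fun _ : V d × V d => (1 : ℝ) := by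
  have := weight_mul (d := d) (h := fun _ => 1) (k := fun _ => 1) measurable_const measurable_const
    (c := 1) (fun _ _ => by simp) (fun v => by simpa using one_le_rpow_two v)
  simpa using this

lemma weight_sq : Weight fun p : V d × V d => ‖p.2‖ ^ 2 := by
  have := weight_mul (d := d) (h := fun _ => 1) (k := fun v => ‖v‖ ^ 2) measurable_const
    (by fun_prop) (c := 1) (fun _ _ => by simp)
    (fun v => by simpa [abs_of_nonneg (sq_nonneg ‖v‖)] using norm_sq_le_rpow_two v)
  simpa using this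

lemma IsSolution.mass_eq (hf : IsSolution B T f) {t : ℝ} (h0 : 0 ≤ t) (h1 : t < T) :
    mass f t = mass f 0 := by
  have h := hf.weak (fun _ => 1) contDiff_const (fun _ _ => rfl) _ test_one 0 t le_rfl h0 h1
  have h2 : ∀ s, collision B (f s 0) (fun _ => (1 : ℝ)) = 0 := fun s => collision_one B _
  simp only [collision_one, mul_zero, integral_zero, add_zero, fderiv_fun_const, Pi.zero_apply,
    mul_one] at h
  simp [phase, mass] at h ⊢
  linarith

lemma IsSolution.energy_eq (hf : IsSolution B T f) {t : ℝ} (h0 : 0 ≤ t) (h1 : t < T) :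
    energy f t = energy f 0 := by
  have h := hf.weak (fun _ => 1) contDiff_const (fun _ _ => rfl) _ test_sq 0 t le_rfl h0 h1
  simp only [collision_sq, mul_zero, integral_zero, add_zero, fderiv_fun_const, Pi.zero_apply,
    one_mul] at h
  simp [phase, energy] at h ⊢
  linarith

end Solution

end Pool.Agent.H82.BZ
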