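import Pool.Agent.H82.BZ.Coll

open MeasureTheory Set Filter Topology

noncomputable section

namespace Pool.Agent.H82.BZ

variable {d : ℕ}

/-! ### The truncated square -/

def sqp (u : ℝ) : ℝ := (max 0 u) ^ 2

lemma hasDerivAt_sqp (u : ℝ) : HasDerivAt sqp (2 * max 0 u) u := by
  rcases lt_trichotomy u 0 with h | h | h
  · have h1 : sqp =ᶠ[𝓝 u] fun _ => 0 := by
      filter_upwards [Iio_mem_nhds h] with y hy
      simp only [sqp, mem_Iio] at *
      rw [max_eq_left hy.le]; norm_num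
    rw [max_eq_left h.le]
    simpa using (hasDerivAt_const u (0 : ℝ)).congr_of_eventuallyEq h1
  · subst h
    simp only [max_self, mul_zero]
    rw [hasDerivAt_iff_isLittleO]
    have : (fun x' : ℝ => sqp x' - sqp 0 - (x' - 0) • (0 : ℝ)) = sqp := by
      funext x; simp [sqp]
    rw [this]
    have h2 : sqp =O[𝓝 0] fun x : ℝ => x ^ 2 := by
      refine Asymptotics.isBigO_of_le _ fun x => ?_
      simp only [sqp, norm_pow, Real.norm_eq_abs]
      refine pow_le_pow_left₀ (abs_nonneg _) ?_ 2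
      rw [abs_of_nonneg (le_max_left _ _)]
      exact max_le (abs_nonneg _) (le_abs_self _)
    refine h2.trans_isLittleO ?_
    simpa using (Asymptotics.isLittleO_pow_id (𝕜 := ℝ) one_lt_two)
  · have h1 : sqp =ᶠ[𝓝 u] fun y => y ^ 2 := by
      filter_upwards [Ioi_mem_nhds h] with y hy
      simp only [sqp, mem_Ioi] at *
      rw [max_eq_right hy.le]
    rw [max_eq_right h.le]
    simpa using (hasDerivAt_pow 2 u).congr_of_eventuallyEq h1

lemma contDiff_sqp : ContDiff ℝ 1 sqp := by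
  rw [contDiff_one_iff_deriv]
  refine ⟨fun u => (hasDerivAt_sqp u).differentiableAt, ?_⟩
  have : deriv sqp = fun u => 2 * max 0 u := by
    funext u; exact (hasDerivAt_sqp u).deriv
  rw [this]
  fun_prop

/-! ### The vector field -/

/-- the coordinate `sin(π (x_i - a_i)) / π` -/
def sn (a : V d) (i : Fin d) (x : V d) : ℝ := Real.sin (Real.pi * (x i - a i)) / Real.pi

/-- `cos(π (x_i - a_i))` -/
def cs (a : V d) (i : Fin d) (x : V d) : ℝ := Real.cos (Real.pi * (x i - a i))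

/-- the square of the distance, up to bounded factors -/
def S (a x : V d) : ℝ := ∑ i, sn a i x ^ 2

def W (r ρ : ℝ) (a x : V d) : ℝ := sqp (1 - S a x / ρ ^ 2) * (Real.sqrt (r ^ 2 + S a x))⁻¹

/-- the components of the vector field -/
def bf (r ρ : ℝ) (a : V d) (i : Fin d) (x : V d) : ℝ := W r ρ a x * (sn a i x * cs a i x)

lemma S_nonneg (a x : V d) : 0 ≤ S a x := Finset.sum_nonneg fun i _ => sq_nonneg _

lemma hasFDerivAt_coord (i : Fin d) (x : V d) :
    HasFDerivAt (fun x : V d => x i) (EuclideanSpace.proj i : V d →L[ℝ] ℝ) x :=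
  (EuclideanSpace.proj i : V d →L[ℝ] ℝ).hasFDerivAt

lemma hasFDerivAt_sn (a : V d) (i : Fin d) (x : V d) :
    HasFDerivAt (sn a i) (cs a i x • (EuclideanSpace.proj i : V d →L[ℝ] ℝ)) x := by
  have h1 : HasFDerivAt (fun x : V d => Real.pi * (x i - a i))
      (Real.pi • (EuclideanSpace.proj i : V d →L[ℝ] ℝ)) x :=
    ((hasFDerivAt_coord i x).sub_const _).const_mul _
  have h2 := (h1.sin).mul_const (Real.pi⁻¹)
  have h3 : (fun y : V d => Real.sin (Real.pi * (y i - a i)) * Real.pi⁻¹) = sn a i := by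
    funext y; simp [sn, div_eq_mul_inv]
  rw [h3] at h2
  refine h2.congr_fderiv ?_
  ext w
  simp only [cs, FunLike.coe_smul, Pi.smul_apply, smul_eq_mul]
  field_simp

lemma hasFDerivAt_cs (a : V d) (i : Fin d) (x : V d) :
    HasFDerivAt (cs a i) ((-(Real.pi ^ 2 * sn a i x)) • (EuclideanSpace.proj i : V d →L[ℝ] ℝ)) x := by
  have h1 : HasFDerivAt (fun x : V d => Real.pi * (x i - a i))
      (Real.pi • (EuclideanSpace.proj i : V d →L[ℝ] ℝ)) x :=
    ((hasFDerivAt_coord i x).sub_const _).const_mul _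
  refine (h1.cos).congr_fderiv ?_
  ext w
  simp only [sn, FunLike.coe_smul, Pi.smul_apply, smul_eq_mul]
  field_simp

lemma cs_sq (a : V d) (i : Fin d) (x : V d) : cs a i x ^ 2 = 1 - Real.pi ^ 2 * sn a i x ^ 2 := by
  have h := Real.sin_sq_add_cos_sq (Real.pi * (x i - a i))
  simp only [cs, sn]
  rw [div_pow]
  have hp : Real.pi ≠ 0 := Real.pi_ne_zero
  field_simp
  linarith

lemma hasFDerivAt_S (a x : V d) :
    HasFDerivAt (S a) (∑ i, (2 * (sn a i x * cs a i x)) • (EuclideanSpace.proj i : V d →L[ℝ] ℝ))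
      x := by
  have h : ∀ i ∈ (Finset.univ : Finset (Fin d)), HasFDerivAt (fun x => sn a i x ^ 2)
      ((2 * (sn a i x * cs a i x)) • (EuclideanSpace.proj i : V d →L[ℝ] ℝ)) x := by
    intro i _
    have := (hasFDerivAt_sn a i x).pow 2
    refine this.congr_fderiv ?_
    ext w
    simp
    ring
  exact HasFDerivAt.fun_sum h

/-- the radial profile -/
def G (r ρ s : ℝ) : ℝ := sqp (1 - s / ρ ^ 2) * (Real.sqrt (r ^ 2 + s))⁻¹

def G' (r ρ s : ℝ) : ℝ :=
  -(2 * max 0 (1 - s / ρ ^ 2) / ρ ^ 2) * (Real.sqrt (r ^ 2 + s))⁻¹ -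
    sqp (1 - s / ρ ^ 2) * (2 * Real.sqrt (r ^ 2 + s) ^ 3)⁻¹

lemma hasDerivAt_G {r ρ s : ℝ} (hr : 0 < r) (hs : 0 ≤ s) : HasDerivAt (G r ρ) (G' r ρ s) s := by
  have hD : 0 < r ^ 2 + s := by positivity
  have h1 : HasDerivAt (fun s : ℝ => 1 - s / ρ ^ 2) (-(1 / ρ ^ 2)) s := by
    simpa using ((hasDerivAt_id s).div_const (ρ ^ 2)).const_sub 1
  have h2 := (hasDerivAt_sqp (1 - s / ρ ^ 2)).comp s h1
  have h3 : HasDerivAt (fun s : ℝ => Real.sqrt (r ^ 2 + s)) (1 / (2 * Real.sqrt (r ^ 2 + s))) s :=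
    ((hasDerivAt_id s).const_add (r ^ 2)).sqrt hD.ne'
  have h4 := h3.inv (Real.sqrt_pos.mpr hD).ne'
  have h5 := h2.mul h4
  refine h5.congr_deriv ?_
  have hq : 0 < Real.sqrt (r ^ 2 + s) := Real.sqrt_pos.mpr hD
  simp only [G', Function.comp, Pi.inv_apply]
  field_simp
  ring

lemma W_eq (r ρ : ℝ) (a x : V d) : W r ρ a x = G r ρ (S a x) := rfl

lemma hasFDerivAt_W {r ρ : ℝ} (hr : 0 < r) (a x : V d) :
    HasFDerivAt (W r ρ a) (G' r ρ (S a x) •
      ∑ i, (2 * (sn a i x * cs a i x)) • (EuclideanSpace.proj i : V d →L[ℝ] ℝ)) x :=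
  (hasDerivAt_G (ρ := ρ) hr (S_nonneg a x)).comp_hasFDerivAt x (hasFDerivAt_S a x)

/-- `∑ s_j c_j v_j` -/
def P (a x v : V d) : ℝ := ∑ j, sn a j x * cs a j x * v j

lemma fderiv_bf {r ρ : ℝ} (hr : 0 < r) (a : V d) (i : Fin d) (x v : V d) :
    fderiv ℝ (bf r ρ a i) x v = G' r ρ (S a x) * (2 * P a x v) * (sn a i x * cs a i x) +
      W r ρ a x * ((cs a i x ^ 2 - Real.pi ^ 2 * sn a i x ^ 2) * v i) := by
  have h1 := (hasFDerivAt_sn a i x).mul (hasFDerivAt_cs a i x)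
  have h2 := (hasFDerivAt_W (ρ := ρ) hr a x).mul h1
  have h3 : HasFDerivAt (bf r ρ a i) _ x := h2
  rw [h3.fderiv]
  simp [P]
  have h4 : ∑ j, 2 * (sn a j x * cs a j x) * v j = 2 * ∑ j, sn a j x * cs a j x * v j := by
    rw [Finset.mul_sum]
    exact Finset.sum_congr rfl fun j _ => by ring
  rw [h4]
  ring

lemma sum_fderiv_bf {r ρ : ℝ} (hr : 0 < r) (a x v : V d) :
    ∑ i, fderiv ℝ (bf r ρ a i) x v * v i = 2 * G' r ρ (S a x) * P a x v ^ 2 +
      W r ρ a x * ∑ i, (cs a i x ^ 2 - Real.pi ^ 2 * sn a i x ^ 2) * v i ^ 2 := by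
  simp only [fderiv_bf hr]
  have h1 : P a x v ^ 2 = P a x v * ∑ i, sn a i x * cs a i x * v i := by
    rw [sq]; rfl
  rw [h1, Finset.mul_sum, Finset.mul_sum, Finset.mul_sum, ← Finset.sum_add_distrib]
  exact Finset.sum_congr rfl fun j _ => by ring

/-- `∑ c_i² v_i²` -/
def Q (a x v : V d) : ℝ := ∑ i, cs a i x ^ 2 * v i ^ 2

lemma Q_nonneg (a x v : V d) : 0 ≤ Q a x v := Finset.sum_nonneg fun i _ => by positivity

lemma P_sq_le (a x v : V d) : P a x v ^ 2 ≤ S a x * Q a x v := by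
  have := Finset.sum_mul_sq_le_sq_mul_sq Finset.univ (fun i => sn a i x) (fun i => cs a i x * v i)
  simp only [P, S, Q]
  calc (∑ j, sn a j x * cs a j x * v j) ^ 2 = (∑ i, sn a i x * (cs a i x * v i)) ^ 2 := by
        congr 1; exact Finset.sum_congr rfl fun j _ => by ring
    _ ≤ _ := this
    _ = _ := by
        congr 1; exact Finset.sum_congr rfl fun j _ => by ring

lemma norm_sq_eq_sum (v : V d) : ‖v‖ ^ 2 = ∑ i, v i ^ 2 := by
  rw [EuclideanSpace.norm_sq_eq]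
  simp

lemma Q_le (a x v : V d) : Q a x v ≤ ‖v‖ ^ 2 := by
  rw [norm_sq_eq_sum]
  refine Finset.sum_le_sum fun i _ => ?_
  have := cs_sq a i x
  have h2 : cs a i x ^ 2 ≤ 1 := by rw [this]; have := sq_nonneg (Real.pi * sn a i x); nlinarith
  nlinarith [sq_nonneg (v i)]

lemma sn_sq_le (a : V d) (i : Fin d) (x : V d) : sn a i x ^ 2 ≤ S a x :=
  Finset.single_le_sum (f := fun i => sn a i x ^ 2) (fun _ _ => sq_nonneg _) (Finset.mem_univ i)

lemma le_Q (a x v : V d) : (1 - Real.pi ^ 2 * S a x) * ‖v‖ ^ 2 ≤ Q a x v := by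
  rw [norm_sq_eq_sum, Finset.mul_sum]
  refine Finset.sum_le_sum fun i _ => ?_
  rw [cs_sq a i x]
  have := sn_sq_le a i x
  have h2 : 0 ≤ v i ^ 2 := sq_nonneg _
  have h3 : 1 - Real.pi ^ 2 * S a x ≤ 1 - Real.pi ^ 2 * sn a i x ^ 2 := by
    have := mul_le_mul_of_nonneg_left this (sq_nonneg Real.pi)
    linarith
  nlinarith

lemma sum_sn_le (a x v : V d) :
    ∑ i, (cs a i x ^ 2 - Real.pi ^ 2 * sn a i x ^ 2) * v i ^ 2 ≥
      Q a x v - Real.pi ^ 2 * S a x * ‖v‖ ^ 2 := by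
  rw [norm_sq_eq_sum, Finset.mul_sum, Q, ← Finset.sum_sub_distrib]
  refine Finset.sum_le_sum fun i _ => ?_
  have := sn_sq_le a i x
  have h2 : 0 ≤ v i ^ 2 := sq_nonneg _
  have h3 := mul_le_mul_of_nonneg_left this (sq_nonneg Real.pi)
  nlinarith

/-- The quadratic form of the derivative of the vector field is bounded from below. -/
lemma form_ge {r ρ : ℝ} (hr : 0 < r) (hrρ : 2 * r ≤ ρ) (hρ : Real.pi * ρ ≤ 1) (a x v : V d) :
    (if S a x ≤ r ^ 2 then 1 / (8 * r) else 0) * ‖v‖ ^ 2 -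
      (if S a x < ρ ^ 2 then 5 / ρ else 0) * ‖v‖ ^ 2 ≤
        ∑ i, fderiv ℝ (bf r ρ a i) x v * v i := by
  have hρ0 : 0 < ρ := by linarith
  have hN : 0 ≤ ‖v‖ ^ 2 := sq_nonneg _
  have hS := S_nonneg a x
  have hQ0 := Q_nonneg a x v
  have hQ1 := Q_le a x v
  have hP := P_sq_le a x v
  have hP0 : 0 ≤ P a x v ^ 2 := sq_nonneg _
  rw [sum_fderiv_bf hr]
  by_cases h : S a x < ρ ^ 2
  · rw [if_pos h]
    set s := S a x with hs
    set D := Real.sqrt (r ^ 2 + s) with hD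
    have hD0 : 0 < D := Real.sqrt_pos.mpr (by positivity)
    have hD2 : D ^ 2 = r ^ 2 + s := Real.sq_sqrt (by positivity)
    have hu : 0 < 1 - s / ρ ^ 2 := by
      rw [sub_pos, div_lt_one (by positivity)]; exact h
    have hu1 : 1 - s / ρ ^ 2 ≤ 1 := by
      have : 0 ≤ s / ρ ^ 2 := by positivity
      linarith
    set u := 1 - s / ρ ^ 2 with hudef
    have hg : sqp u = u ^ 2 := by simp only [sqp]; rw [max_eq_right hu.le]
    have hW : W r ρ a x = u ^ 2 * D⁻¹ := by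
      rw [W_eq, G, ← hs, ← hudef, ← hD, hg]
    have hG' : G' r ρ s = -(2 * u / ρ ^ 2) * D⁻¹ - u ^ 2 * (2 * D ^ 3)⁻¹ := by
      rw [G', ← hudef, ← hD, hg, max_eq_right hu.le]
    have hG'0 : G' r ρ s ≤ 0 := by
      rw [hG']
      have h1 : 0 ≤ 2 * u / ρ ^ 2 * D⁻¹ := by positivity
      have h2 : 0 ≤ u ^ 2 * (2 * D ^ 3)⁻¹ := by positivity
      linarith
    -- `s ≤ ρ D`
    have hsD : s ≤ ρ * D := by
      apply abs_le_of_sq_le_sq' _ (by positivity) |>.2
      rw [mul_pow, hD2]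
      nlinarith [sq_nonneg r]
    have hW0 : 0 ≤ W r ρ a x := by rw [hW]; positivity
    have e1 : 2 * G' r ρ s * P a x v ^ 2 ≥ 2 * G' r ρ s * (s * Q a x v) := by
      have : G' r ρ s * (s * Q a x v) ≤ G' r ρ s * P a x v ^ 2 :=
        mul_le_mul_of_nonpos_left hP hG'0
      linarith
    have e2 : W r ρ a x * ∑ i, (cs a i x ^ 2 - Real.pi ^ 2 * sn a i x ^ 2) * v i ^ 2 ≥
        W r ρ a x * (Q a x v - Real.pi ^ 2 * s * ‖v‖ ^ 2) :=
      mul_le_mul_of_nonneg_left (sum_sn_le a x v) hW0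
    -- the main identity
    have e3 : 2 * G' r ρ s * (s * Q a x v) + W r ρ a x * (Q a x v - Real.pi ^ 2 * s * ‖v‖ ^ 2) =
        u ^ 2 * r ^ 2 / D ^ 3 * Q a x v - 4 * u / ρ ^ 2 * (s / D) * Q a x v -
          u ^ 2 * Real.pi ^ 2 * (s / D) * ‖v‖ ^ 2 := by
      rw [hW, hG']
      have : r ^ 2 = D ^ 2 - s := by linarith
      rw [this]
      field_simp
      ring
    have hsD' : s / D ≤ ρ := by rw [div_le_iff₀ hD0]; exact hsD
    have hsD0 : 0 ≤ s / D := by positivity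
    have e4 : 4 * u / ρ ^ 2 * (s / D) * Q a x v ≤ 4 / ρ * ‖v‖ ^ 2 := by
      have h1 : 4 * u / ρ ^ 2 * (s / D) ≤ 4 / ρ := by
        calc 4 * u / ρ ^ 2 * (s / D) ≤ 4 * 1 / ρ ^ 2 * ρ := by gcongr
          _ = 4 / ρ := by field_simp
      have h2 : 0 ≤ 4 / ρ := by positivity
      calc 4 * u / ρ ^ 2 * (s / D) * Q a x v ≤ 4 / ρ * Q a x v := by gcongr
        _ ≤ _ := by gcongr
    have e5 : u ^ 2 * Real.pi ^ 2 * (s / D) * ‖v‖ ^ 2 ≤ 1 / ρ * ‖v‖ ^ 2 := by
      have h1 : u ^ 2 ≤ 1 := by nlinarith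
      have h2 : Real.pi ^ 2 * ρ ≤ 1 / ρ := by
        rw [le_div_iff₀ hρ0]
        have h0 : 0 ≤ Real.pi * ρ := by positivity
        nlinarith
      have h3 : u ^ 2 * Real.pi ^ 2 * (s / D) ≤ 1 / ρ := by
        calc u ^ 2 * Real.pi ^ 2 * (s / D) ≤ 1 * Real.pi ^ 2 * ρ := by gcongr
          _ ≤ 1 / ρ := by linarith
      gcongr
    have e6 : (if s ≤ r ^ 2 then 1 / (8 * r) else 0) * ‖v‖ ^ 2 ≤ u ^ 2 * r ^ 2 / D ^ 3 * Q a x v := by
      split_ifs with hsr
      · have hu34 : 3 / 4 ≤ u := by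
          have : s / ρ ^ 2 ≤ 1 / 4 := by
            rw [div_le_iff₀ (by positivity)]
            nlinarith
          rw [hudef]; linarith
        have hQ2 : 3 / 4 * ‖v‖ ^ 2 ≤ Q a x v := by
          refine le_trans ?_ (le_Q a x v)
          have : Real.pi ^ 2 * s ≤ 1 / 4 := by
            have h1 : Real.pi * r ≤ 1 / 2 := by nlinarith [Real.pi_pos]
            have h2 : 0 ≤ Real.pi * r := by positivity
            have h3 : (Real.pi * r) ^ 2 ≤ 1 / 4 := by nlinarith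
            calc Real.pi ^ 2 * s ≤ Real.pi ^ 2 * r ^ 2 := by gcongr
              _ = (Real.pi * r) ^ 2 := by ring
              _ ≤ _ := h3
          have h4 : 3 / 4 ≤ 1 - Real.pi ^ 2 * s := by linarith
          exact mul_le_mul_of_nonneg_right h4 hN
        have hD3 : D ^ 3 ≤ 3 * r ^ 3 := by
          have h1 : D ^ 2 ≤ 2 * r ^ 2 := by rw [hD2]; linarith
          have h2 : D ≤ 3 / 2 * r := by
            apply abs_le_of_sq_le_sq' _ (by positivity) |>.2
            nlinarith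
          calc D ^ 3 = D ^ 2 * D := by ring
            _ ≤ 2 * r ^ 2 * (3 / 2 * r) := by gcongr
            _ = 3 * r ^ 3 := by ring
        have h5 : 1 / (3 * r) ≤ r ^ 2 / D ^ 3 := by
          rw [div_le_div_iff₀ (by positivity) (by positivity)]
          nlinarith
        have h6 : 9 / 16 ≤ u ^ 2 := by nlinarith
        calc 1 / (8 * r) * ‖v‖ ^ 2 ≤ 9 / 16 * (1 / (3 * r)) * (3 / 4 * ‖v‖ ^ 2) := by
              have : 0 ≤ 1 / r * ‖v‖ ^ 2 := by positivity
              have e : 9 / 16 * (1 / (3 * r)) * (3 / 4 * ‖v‖ ^ 2) = 9 / 64 * (1 / r * ‖v‖ ^ 2) := by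
                field_simp; ring
              have e' : 1 / (8 * r) * ‖v‖ ^ 2 = 1 / 8 * (1 / r * ‖v‖ ^ 2) := by
                field_simp
              rw [e, e']; linarith
          _ ≤ u ^ 2 * (r ^ 2 / D ^ 3) * Q a x v := by gcongr
          _ = u ^ 2 * r ^ 2 / D ^ 3 * Q a x v := by ring
      · simp only [zero_mul]; positivity
    have e7 : 5 / ρ * ‖v‖ ^ 2 = 4 / ρ * ‖v‖ ^ 2 + 1 / ρ * ‖v‖ ^ 2 := by ring
    linarith
  · rw [if_neg h]
    push Not at h
    have hr2 : r ^ 2 < S a x := lt_of_lt_of_le (by nlinarith) h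
    rw [if_neg (not_le.mpr hr2)]
    have hu : 1 - S a x / ρ ^ 2 ≤ 0 := by
      rw [sub_nonpos, le_div_iff₀ (by positivity)]; linarith
    have hg : sqp (1 - S a x / ρ ^ 2) = 0 := by simp only [sqp]; rw [max_eq_left hu]; norm_num
    have hW : W r ρ a x = 0 := by rw [W_eq, G, hg, zero_mul]
    have hG' : G' r ρ (S a x) = 0 := by rw [G', hg, max_eq_left hu]; simp
    rw [hW, hG']
    simp

/-- The vector field has length at most one and is supported in `S < ρ ^ 2`. -/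
lemma abs_sum_bf_le {r ρ : ℝ} (hr : 0 < r) (hρ0 : 0 < ρ) (a x v : V d) :
    |∑ i, bf r ρ a i x * v i| ≤ (if S a x < ρ ^ 2 then 1 else 0) * ‖v‖ := by
  have h0 : ∑ i, bf r ρ a i x * v i = W r ρ a x * P a x v := by
    simp only [bf, P, Finset.mul_sum]
    exact Finset.sum_congr rfl fun j _ => by ring
  rw [h0]
  have hS := S_nonneg a x
  by_cases h : S a x < ρ ^ 2
  · rw [if_pos h, one_mul, abs_mul]
    have hD0 : 0 < Real.sqrt (r ^ 2 + S a x) := Real.sqrt_pos.mpr (by positivity)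
    have hD2 : Real.sqrt (r ^ 2 + S a x) ^ 2 = r ^ 2 + S a x := Real.sq_sqrt (by positivity)
    have hu : 0 < 1 - S a x / ρ ^ 2 := by
      rw [sub_pos, div_lt_one (by positivity)]; exact h
    have hu1 : 1 - S a x / ρ ^ 2 ≤ 1 := by
      have : 0 ≤ S a x / ρ ^ 2 := by positivity
      linarith
    have hg : sqp (1 - S a x / ρ ^ 2) ≤ 1 := by
      simp only [sqp]; rw [max_eq_right hu.le]; nlinarith
    have hg0 : 0 ≤ sqp (1 - S a x / ρ ^ 2) := by simp only [sqp]; positivity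
    have h1 : |P a x v| ≤ Real.sqrt (r ^ 2 + S a x) * ‖v‖ := by
      apply abs_le_of_sq_le_sq _ (by positivity)
      rw [mul_pow, hD2]
      calc P a x v ^ 2 ≤ S a x * Q a x v := P_sq_le a x v
        _ ≤ (r ^ 2 + S a x) * ‖v‖ ^ 2 := by
          have := Q_le a x v
          have hQ0 := Q_nonneg a x v
          have : S a x ≤ r ^ 2 + S a x := by linarith [sq_nonneg r]
          gcongr
    rw [W_eq, G, abs_mul, abs_of_nonneg hg0, abs_of_nonneg (inv_nonneg.mpr hD0.le)]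
    calc sqp (1 - S a x / ρ ^ 2) * (Real.sqrt (r ^ 2 + S a x))⁻¹ * |P a x v| ≤
        1 * (Real.sqrt (r ^ 2 + S a x))⁻¹ * (Real.sqrt (r ^ 2 + S a x) * ‖v‖) := by gcongr
      _ = ‖v‖ := by field_simp
  · rw [if_neg h]
    push Not at h
    have hu : 1 - S a x / ρ ^ 2 ≤ 0 := by
      rw [sub_nonpos, le_div_iff₀ (by positivity)]; linarith
    have hg : sqp (1 - S a x / ρ ^ 2) = 0 := by simp only [sqp]; rw [max_eq_left hu]; norm_num
    have hW : W r ρ a x = 0 := by rw [W_eq, G, hg, zero_mul]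
    rw [hW]; simp

lemma contDiff_sn (a : V d) (i : Fin d) : ContDiff ℝ 1 (sn a i) := by
  unfold sn
  have : ContDiff ℝ 1 fun x : V d => x i := (EuclideanSpace.proj i : V d →L[ℝ] ℝ).contDiff
  fun_prop

lemma contDiff_cs (a : V d) (i : Fin d) : ContDiff ℝ 1 (cs a i) := by
  unfold cs
  have : ContDiff ℝ 1 fun x : V d => x i := (EuclideanSpace.proj i : V d →L[ℝ] ℝ).contDiff
  fun_prop

lemma contDiff_S (a : V d) : ContDiff ℝ 1 (S a) := by
  unfold S
  exact ContDiff.sum fun i _ => (contDiff_sn a i).pow 2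

lemma contDiff_bf {r ρ : ℝ} (hr : 0 < r) (a : V d) (i : Fin d) : ContDiff ℝ 1 (bf r ρ a i) := by
  unfold bf W
  have h1 : ContDiff ℝ 1 fun x => sqp (1 - S a x / ρ ^ 2) :=
    contDiff_sqp.comp (contDiff_const.sub ((contDiff_S a).div_const _))
  have h2 : ContDiff ℝ 1 fun x => (Real.sqrt (r ^ 2 + S a x))⁻¹ := by
    refine ContDiff.inv (ContDiff.sqrt (contDiff_const.add (contDiff_S a)) fun x => ?_) fun x => ?_
    · have := S_nonneg a x; positivity
    · have := S_nonneg a x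
      exact (Real.sqrt_pos.mpr (by positivity)).ne'
  exact (h1.mul h2).mul ((contDiff_sn a i).mul (contDiff_cs a i))

lemma sn_add_lat (a : V d) (i : Fin d) (x : V d) (n : Fin d → ℤ) :
    sn a i (x + lat n) = (-1) ^ n i * sn a i x := by
  simp only [sn, lat, PiLp.add_apply]
  rw [show Real.pi * (x i + (n i : ℝ) - a i) = Real.pi * (x i - a i) + n i * Real.pi by ring,
    Real.sin_add_int_mul_pi]
  ring

lemma cs_add_lat (a : V d) (i : Fin d) (x : V d) (n : Fin d → ℤ) :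
    cs a i (x + lat n) = (-1) ^ n i * cs a i x := by
  simp only [cs, lat, PiLp.add_apply]
  rw [show Real.pi * (x i + (n i : ℝ) - a i) = Real.pi * (x i - a i) + n i * Real.pi by ring,
    Real.cos_add_int_mul_pi]

lemma sign_sq (n : ℤ) : ((-1 : ℝ) ^ n) * (-1) ^ n = 1 := by
  rw [← mul_zpow]; norm_num

lemma S_add_lat (a x : V d) (n : Fin d → ℤ) : S a (x + lat n) = S a x := by
  simp only [S]
  refine Finset.sum_congr rfl fun i _ => ?_
  rw [sn_add_lat, mul_pow, sq, sign_sq, one_mul]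

lemma periodic_bf (r ρ : ℝ) (a : V d) (i : Fin d) : Periodic (bf r ρ a i) := by
  intro n x
  simp only [bf, W, S_add_lat, sn_add_lat, cs_add_lat]
  have := sign_sq (n i)
  linear_combination (sqp (1 - S a x / ρ ^ 2) * (Real.sqrt (r ^ 2 + S a x))⁻¹ * sn a i x * cs a i x) * this

lemma S_le_of_near {a x : V d} {r : ℝ} (h : x ∈ near a r) (hr : 0 ≤ r) : S a x ≤ r ^ 2 := by
  obtain ⟨n, hn⟩ := h
  have h1 : S a x = S a (x + lat (-n)) := (S_add_lat a x (-n)).symm
  rw [h1]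
  calc S a (x + lat (-n)) ≤ ∑ i, ((x - a - lat n) i) ^ 2 := by
        refine Finset.sum_le_sum fun i _ => ?_
        simp only [sn, lat, PiLp.add_apply, PiLp.sub_apply, Pi.neg_apply]
        rw [div_pow, div_le_iff₀ (by positivity), ← mul_pow]
        rw [sq_le_sq]
        calc |Real.sin (Real.pi * (x i + ((-n i : ℤ) : ℝ) - a i))| ≤
            |Real.pi * (x i + ((-n i : ℤ) : ℝ) - a i)| := Real.abs_sin_le_abs
          _ = |(x i - a i - (n i : ℝ)) * Real.pi| := by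
            congr 1; push_cast; ring
    _ = ‖x - a - lat n‖ ^ 2 := (norm_sq_eq_sum _).symm
    _ ≤ r ^ 2 := by gcongr

end Pool.Agent.H82.BZ
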