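import Pool.Agent.H82.BZ.Moments
import Pool.Agent.H82.BZ.Weight

open MeasureTheory Set Filter Topology

noncomputable section

namespace Pool.Agent.H82.BZ

variable {d : ℕ} {B : ℝ → ℝ → ℝ} {T : ℝ} {f : ℝ → V d → V d → ℝ}

lemma bounded_on_cube {g : V d → ℝ} (hg : Continuous g) : ∃ c, ∀ x ∈ cube d, |g x| ≤ c := by
  obtain ⟨c, hc⟩ := (isCompact_closedBall (0 : V d) (Real.sqrt d)).exists_bound_of_continuousOn
    hg.continuousOn
  exact ⟨c, fun x hx => by simpa using hc x (cube_subset_ball hx)⟩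

lemma measurable_coord (i : Fin d) : Measurable fun v : V d => v i :=
  ((EuclideanSpace.proj i : V d →L[ℝ] ℝ).continuous).measurable

lemma abs_coord_le (v : V d) (i : Fin d) : |v i| ≤ ‖v‖ := by
  simpa using PiLp.norm_apply_le v i

lemma weight_bf {r ρ : ℝ} (hr : 0 < r) (a : V d) (i : Fin d) :
    Weight fun p : V d × V d => bf r ρ a i p.1 * p.2 i := by
  obtain ⟨c, hc⟩ := bounded_on_cube (contDiff_bf (ρ := ρ) hr a i).continuous
  exact weight_mul (contDiff_bf hr a i).continuous.measurable (measurable_coord i) hc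
    fun v => (abs_coord_le v i).trans (norm_le_rpow_two v)

lemma weight_fderiv_bf {r ρ : ℝ} (hr : 0 < r) (a : V d) (i : Fin d) :
    Weight fun p : V d × V d => fderiv ℝ (bf r ρ a i) p.1 p.2 * p.2 i := by
  have hcd := contDiff_bf (ρ := ρ) hr a i
  have hcont : Continuous (fderiv ℝ (bf r ρ a i)) := hcd.continuous_fderiv one_ne_zero
  obtain ⟨c, hc⟩ := (isCompact_closedBall (0 : V d) (Real.sqrt d)).exists_bound_of_continuousOn
    hcont.continuousOn
  refine ⟨?_, |c|, abs_nonneg c, fun p hp => ?_⟩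
  · have h1 : Continuous fun p : V d × V d => fderiv ℝ (bf r ρ a i) p.1 p.2 :=
      (hcont.comp continuous_fst).clm_apply continuous_snd
    exact h1.measurable.mul ((measurable_coord i).comp measurable_snd)
  · rw [abs_mul]
    have h1 : |fderiv ℝ (bf r ρ a i) p.1 p.2| ≤ |c| * ‖p.2‖ := by
      calc |fderiv ℝ (bf r ρ a i) p.1 p.2| = ‖fderiv ℝ (bf r ρ a i) p.1 p.2‖ := rfl
        _ ≤ ‖fderiv ℝ (bf r ρ a i) p.1‖ * ‖p.2‖ := ContinuousLinearMap.le_opNorm _ _
        _ ≤ |c| * ‖p.2‖ := by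
          gcongr
          exact (hc p.1 (cube_subset_ball hp)).trans (le_abs_self c)
    calc |fderiv ℝ (bf r ρ a i) p.1 p.2| * |p.2 i| ≤ (|c| * ‖p.2‖) * ‖p.2‖ := by
          gcongr
          exact abs_coord_le _ _
      _ = |c| * ‖p.2‖ ^ 2 := by ring
      _ ≤ |c| * (1 + ‖p.2‖) ^ (2 : ℝ) := by
          gcongr
          exact norm_sq_le_rpow_two p.2

/-- the virial functional -/
def J (f : ℝ → V d → V d → ℝ) (r ρ : ℝ) (a : V d) (t : ℝ) : ℝ :=
  ∫ p, f t p.1 p.2 * (∑ i, bf r ρ a i p.1 * p.2 i) ∂(pm d)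

lemma J_sub (hf : IsSolution B T f) {r ρ : ℝ} (hr : 0 < r) (a : V d) {t₁ t₂ : ℝ}
    (h0 : 0 ≤ t₁) (h1 : t₁ ≤ t₂) (h2 : t₂ < T) :
    J f r ρ a t₂ - J f r ρ a t₁ =
      ∫ t in t₁..t₂, ∫ p, f t p.1 p.2 * (∑ i, fderiv ℝ (bf r ρ a i) p.1 p.2 * p.2 i) ∂(pm d) := by
  have hi : ∀ i, (∫ p, f t₂ p.1 p.2 * (bf r ρ a i p.1 * p.2 i) ∂(pm d)) -
      (∫ p, f t₁ p.1 p.2 * (bf r ρ a i p.1 * p.2 i) ∂(pm d)) =
      ∫ t in t₁..t₂, ∫ p, f t p.1 p.2 * (fderiv ℝ (bf r ρ a i) p.1 p.2 * p.2 i) ∂(pm d) := by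
    intro i
    have h := hf.weak (bf r ρ a i) (contDiff_bf hr a i) (periodic_bf r ρ a i) _ (test_coord i)
      t₁ t₂ h0 h1 h2
    simp only [collision_coord, mul_zero, integral_zero, add_zero] at h
    exact h
  have hsum : ∀ t, 0 ≤ t → t < T → J f r ρ a t =
      ∑ i, ∫ p, f t p.1 p.2 * (bf r ρ a i p.1 * p.2 i) ∂(pm d) := by
    intro t ht0 ht1
    unfold J
    simp only [Finset.mul_sum]
    exact integral_finsetSum _ fun i _ => (weight_bf hr a i).integrable hf ht0 ht1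
  rw [hsum t₂ (h0.trans h1) h2, hsum t₁ h0 (lt_of_le_of_lt h1 h2), ← Finset.sum_sub_distrib]
  simp only [hi]
  rw [← intervalIntegral.integral_finsetSum]
  · apply intervalIntegral.integral_congr_ae
    refine Eventually.of_forall fun t ht => ?_
    rw [uIoc_of_le h1] at ht
    simp only [Finset.mul_sum]
    exact (integral_finsetSum _ fun i _ => (weight_fderiv_bf hr a i).integrable hf
      (h0.trans ht.1.le) (lt_of_le_of_lt ht.2 h2)).symm
  · intro i _
    exact (weight_fderiv_bf hr a i).intervalIntegrable hf h0 h1 h2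

/-- indicator of `S ≤ s` -/
def inb (a : V d) (s : ℝ) (x : V d) : ℝ := if S a x ≤ s then 1 else 0

/-- indicator of `S < s` -/
def ino (a : V d) (s : ℝ) (x : V d) : ℝ := if S a x < s then 1 else 0

lemma measurable_S (a : V d) : Measurable (S a) := (contDiff_S a).continuous.measurable

lemma measurable_inb (a : V d) (s : ℝ) : Measurable (inb a s) :=
  Measurable.ite (measurableSet_le (measurable_S a) measurable_const) measurable_const
    measurable_const

lemma measurable_ino (a : V d) (s : ℝ) : Measurable (ino a s) :=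
  Measurable.ite (measurableSet_lt (measurable_S a) measurable_const) measurable_const
    measurable_const

lemma ino_nonneg (a : V d) (s : ℝ) (x : V d) : 0 ≤ ino a s x := by
  unfold ino; split_ifs <;> norm_num

lemma ino_le (a : V d) (s : ℝ) (x : V d) : ino a s x ≤ 1 := by
  unfold ino; split_ifs <;> norm_num

lemma inb_nonneg (a : V d) (s : ℝ) (x : V d) : 0 ≤ inb a s x := by
  unfold inb; split_ifs <;> norm_num

lemma inb_le (a : V d) (s : ℝ) (x : V d) : inb a s x ≤ 1 := by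
  unfold inb; split_ifs <;> norm_num

lemma weight_inb_sq (a : V d) (s : ℝ) :
    Weight fun p : V d × V d => inb a s p.1 * ‖p.2‖ ^ 2 :=
  weight_mul (k := fun v : V d => ‖v‖ ^ 2) (c := 1) (measurable_inb a s) (by fun_prop)
    (fun x _ => by rw [abs_of_nonneg (inb_nonneg _ _ _)]; exact inb_le _ _ _)
    (fun v => by rw [abs_of_nonneg (sq_nonneg _)]; exact norm_sq_le_rpow_two v)

lemma weight_ino_sq (a : V d) (s : ℝ) :
    Weight fun p : V d × V d => ino a s p.1 * ‖p.2‖ ^ 2 :=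
  weight_mul (k := fun v : V d => ‖v‖ ^ 2) (c := 1) (measurable_ino a s) (by fun_prop)
    (fun x _ => by rw [abs_of_nonneg (ino_nonneg _ _ _)]; exact ino_le _ _ _)
    (fun v => by rw [abs_of_nonneg (sq_nonneg _)]; exact norm_sq_le_rpow_two v)

lemma weight_ino_norm (a : V d) (s : ℝ) :
    Weight fun p : V d × V d => ino a s p.1 * ‖p.2‖ :=
  weight_mul (k := fun v : V d => ‖v‖) (c := 1) (measurable_ino a s) (by fun_prop)
    (fun x _ => by rw [abs_of_nonneg (ino_nonneg _ _ _)]; exact ino_le _ _ _)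
    (fun v => by rw [abs_of_nonneg (norm_nonneg _)]; exact norm_le_rpow_two v)

lemma weight_ino (a : V d) (s : ℝ) : Weight fun p : V d × V d => ino a s p.1 := by
  have := weight_mul (c := 1) (k := fun _ : V d => (1 : ℝ)) (measurable_ino a s) measurable_const
    (fun x _ => by rw [abs_of_nonneg (ino_nonneg _ _ _)]; exact ino_le _ _ _)
    (fun v => by rw [abs_one]; exact one_le_rpow_two v)
  simpa using this

/-- energy in `S ≤ s` -/
def Eb (f : ℝ → V d → V d → ℝ) (a : V d) (s t : ℝ) : ℝ :=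
  ∫ p, f t p.1 p.2 * (inb a s p.1 * ‖p.2‖ ^ 2) ∂(pm d)

/-- energy in `S < s` -/
def Eo (f : ℝ → V d → V d → ℝ) (a : V d) (s t : ℝ) : ℝ :=
  ∫ p, f t p.1 p.2 * (ino a s p.1 * ‖p.2‖ ^ 2) ∂(pm d)

/-- mass in `S < s` -/
def Mo (f : ℝ → V d → V d → ℝ) (a : V d) (s t : ℝ) : ℝ :=
  ∫ p, f t p.1 p.2 * ino a s p.1 ∂(pm d)

lemma virial_ineq (hf : IsSolution B T f) {r ρ : ℝ} (hr : 0 < r) (hrρ : 2 * r ≤ ρ)
    (hρ : Real.pi * ρ ≤ 1) (a : V d) {t₁ t₂ : ℝ}
    (h0 : 0 ≤ t₁) (h1 : t₁ ≤ t₂) (h2 : t₂ < T) :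
    1 / (8 * r) * (∫ t in t₁..t₂, Eb f a (r ^ 2) t) - 5 / ρ * (∫ t in t₁..t₂, Eo f a (ρ ^ 2) t) ≤
      J f r ρ a t₂ - J f r ρ a t₁ := by
  rw [J_sub hf hr a h0 h1 h2, ← intervalIntegral.integral_const_mul,
    ← intervalIntegral.integral_const_mul, ← intervalIntegral.integral_sub]
  rotate_left
  · exact ((weight_inb_sq a (r ^ 2)).intervalIntegrable hf h0 h1 h2).const_mul _
  · exact ((weight_ino_sq a (ρ ^ 2)).intervalIntegrable hf h0 h1 h2).const_mul _
  refine intervalIntegral.integral_mono_on h1 ?_ ?_ fun t ht => ?_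
  · exact (((weight_inb_sq a (r ^ 2)).intervalIntegrable hf h0 h1 h2).const_mul _).sub
      (((weight_ino_sq a (ρ ^ 2)).intervalIntegrable hf h0 h1 h2).const_mul _)
  · exact (Weight.sum Finset.univ fun i => weight_fderiv_bf (ρ := ρ) hr a i).intervalIntegrable
      hf h0 h1 h2
  · have ht0 : 0 ≤ t := h0.trans ht.1
    have ht1 : t < T := lt_of_le_of_lt ht.2 h2
    have e : 1 / (8 * r) * Eb f a (r ^ 2) t - 5 / ρ * Eo f a (ρ ^ 2) t =
        ∫ p, f t p.1 p.2 * (1 / (8 * r) * (inb a (r ^ 2) p.1 * ‖p.2‖ ^ 2) -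
          5 / ρ * (ino a (ρ ^ 2) p.1 * ‖p.2‖ ^ 2)) ∂(pm d) := by
      unfold Eb Eo
      rw [← integral_const_mul, ← integral_const_mul, ← integral_sub]
      · congr 1; funext p; ring
      · exact ((weight_inb_sq a (r ^ 2)).integrable hf ht0 ht1).const_mul _
      · exact ((weight_ino_sq a (ρ ^ 2)).integrable hf ht0 ht1).const_mul _
    rw [e]
    refine Weight.mono hf (((weight_inb_sq a (r ^ 2)).const_mul _).sub
      ((weight_ino_sq a (ρ ^ 2)).const_mul _))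
      (Weight.sum Finset.univ fun i => weight_fderiv_bf (ρ := ρ) hr a i) ?_ ht0 ht1
    intro p _
    have := form_ge hr hrρ hρ a p.1 p.2
    refine le_trans (le_of_eq ?_) this
    unfold inb ino
    split_ifs <;> ring

/-- Cauchy-Schwarz -/
lemma cs_bound (hf : IsSolution B T f) (a : V d) (s : ℝ) {t : ℝ} (h0 : 0 ≤ t) (h1 : t < T) :
    ∫ p, f t p.1 p.2 * (ino a s p.1 * ‖p.2‖) ∂(pm d) ≤ Real.sqrt (Mo f a s t * Eo f a s t) := by
  set X := ∫ p, f t p.1 p.2 * (ino a s p.1 * ‖p.2‖) ∂(pm d) with hX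
  have hX0 : 0 ≤ X := Weight.nonneg hf
    (fun p _ => mul_nonneg (ino_nonneg _ _ _) (norm_nonneg _)) h0 h1
  have key : ∀ l : ℝ, 0 ≤ Eo f a s t * (l * l) + (-2 * X) * l + Mo f a s t := by
    intro l
    have e : Eo f a s t * (l * l) + (-2 * X) * l + Mo f a s t =
        ∫ p, f t p.1 p.2 * (ino a s p.1 * (l * ‖p.2‖ - 1) ^ 2) ∂(pm d) := by
      have e2 : ∀ p : V d × V d, f t p.1 p.2 * (ino a s p.1 * (l * ‖p.2‖ - 1) ^ 2) =
          l * l * (f t p.1 p.2 * (ino a s p.1 * ‖p.2‖ ^ 2)) +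
            (-2 * l) * (f t p.1 p.2 * (ino a s p.1 * ‖p.2‖)) + f t p.1 p.2 * ino a s p.1 := by
        intro p; ring
      simp only [e2]
      have i1 := ((weight_ino_sq a s).integrable hf h0 h1).const_mul (l * l)
      have i2 := ((weight_ino_norm a s).integrable hf h0 h1).const_mul (-2 * l)
      have i3 := (weight_ino a s).integrable hf h0 h1
      have i12 : Integrable (fun p : V d × V d =>
          l * l * (f t p.1 p.2 * (ino a s p.1 * ‖p.2‖ ^ 2)) +
            (-2 * l) * (f t p.1 p.2 * (ino a s p.1 * ‖p.2‖))) (pm d) := i1.add i2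
      rw [integral_add i12 i3, integral_add i1 i2, integral_const_mul, integral_const_mul]
      simp only [Eo, Mo, hX]
      ring
    rw [e]
    exact Weight.nonneg hf (fun p _ => mul_nonneg (ino_nonneg _ _ _) (sq_nonneg _)) h0 h1
  have hd := discrim_le_zero key
  unfold discrim at hd
  apply Real.le_sqrt_of_sq_le
  nlinarith

lemma abs_J_le (hf : IsSolution B T f) {r ρ : ℝ} (hr : 0 < r) (hρ0 : 0 < ρ) (a : V d) {t : ℝ}
    (h0 : 0 ≤ t) (h1 : t < T) :
    |J f r ρ a t| ≤ Real.sqrt (Mo f a (ρ ^ 2) t * Eo f a (ρ ^ 2) t) := by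
  refine le_trans ?_ (cs_bound hf a (ρ ^ 2) h0 h1)
  unfold J
  calc |∫ p, f t p.1 p.2 * (∑ i, bf r ρ a i p.1 * p.2 i) ∂(pm d)| ≤
      ∫ p, |f t p.1 p.2 * (∑ i, bf r ρ a i p.1 * p.2 i)| ∂(pm d) :=
        abs_integral_le_integral_abs
    _ ≤ _ := by
      refine integral_mono_ae ?_ ((weight_ino_norm a (ρ ^ 2)).integrable hf h0 h1) ?_
      · exact ((Weight.sum Finset.univ fun i => weight_bf (ρ := ρ) hr a i).integrable
          hf h0 h1).abs
      · filter_upwards [ae_mem_cube] with p _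
        rw [abs_mul, abs_of_nonneg (hf.nonneg t h0 h1 _ _)]
        exact mul_le_mul_of_nonneg_left (abs_sum_bf_le hr hρ0 a p.1 p.2) (hf.nonneg t h0 h1 _ _)

lemma Eo_le (hf : IsSolution B T f) (a : V d) (s : ℝ) {t : ℝ} (h0 : 0 ≤ t) (h1 : t < T) :
    Eo f a s t ≤ energy f 0 := by
  rw [← hf.energy_eq h0 h1]
  refine Weight.mono hf (weight_ino_sq a s) weight_sq ?_ h0 h1
  intro p _
  have := ino_le a s p.1
  nlinarith [sq_nonneg ‖p.2‖]

lemma Mo_le (hf : IsSolution B T f) (a : V d) (s : ℝ) {t : ℝ} (h0 : 0 ≤ t) (h1 : t < T) :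
    Mo f a s t ≤ mass f 0 := by
  rw [← hf.mass_eq h0 h1]
  have := Weight.mono hf (weight_ino a s) weight_one (fun p _ => ino_le a s p.1) h0 h1
  simpa [Mo, mass, phase_eq] using this

lemma Mo_nonneg (hf : IsSolution B T f) (a : V d) (s : ℝ) {t : ℝ} (h0 : 0 ≤ t) (h1 : t < T) :
    0 ≤ Mo f a s t := Weight.nonneg hf (fun _ _ => ino_nonneg _ _ _) h0 h1

lemma Eo_nonneg (hf : IsSolution B T f) (a : V d) (s : ℝ) {t : ℝ} (h0 : 0 ≤ t) (h1 : t < T) :
    0 ≤ Eo f a s t :=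
  Weight.nonneg hf (fun _ _ => mul_nonneg (ino_nonneg _ _ _) (sq_nonneg _)) h0 h1

lemma Eb_nonneg (hf : IsSolution B T f) (a : V d) (s : ℝ) {t : ℝ} (h0 : 0 ≤ t) (h1 : t < T) :
    0 ≤ Eb f a s t :=
  Weight.nonneg hf (fun p _ => mul_nonneg (inb_nonneg _ _ _) (sq_nonneg _)) h0 h1

lemma measurableSet_near (a : V d) (r : ℝ) : MeasurableSet (near a r) := by
  have : near a r = ⋃ n : Fin d → ℤ, {x : V d | ‖x - a - lat n‖ ≤ r} := by
    ext x; simp [near]
  rw [this]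
  refine MeasurableSet.iUnion fun n => ?_
  exact measurableSet_le (by fun_prop) measurable_const

lemma energyNear_le (hf : IsSolution B T f) (a : V d) {r : ℝ} (hr : 0 ≤ r) {t : ℝ} (h0 : 0 ≤ t)
    (h1 : t < T) : energyNear f a r t ≤ Eb f a (r ^ 2) t := by
  unfold energyNear Eb pm
  rw [← integral_indicator ((measurableSet_cube.inter (measurableSet_near a r)).prod
    MeasurableSet.univ), ← integral_indicator (measurableSet_cube.prod MeasurableSet.univ)]
  have i1 : Integrable (fun p : V d × V d => f t p.1 p.2 * ‖p.2‖ ^ 2)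
      ((volume : Measure (V d × V d)).restrict (cube d ×ˢ univ)) :=
    weight_sq.integrable hf h0 h1
  have i2 : Integrable (fun p : V d × V d => f t p.1 p.2 * (inb a (r ^ 2) p.1 * ‖p.2‖ ^ 2))
      ((volume : Measure (V d × V d)).restrict (cube d ×ˢ univ)) :=
    (weight_inb_sq a (r ^ 2)).integrable hf h0 h1
  refine integral_mono ?_ ?_ ?_
  · rw [integrable_indicator_iff ((measurableSet_cube.inter (measurableSet_near a r)).prod
      MeasurableSet.univ)]
    exact IntegrableOn.mono_set i1 (prod_mono_left inter_subset_left)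
  · rw [integrable_indicator_iff (measurableSet_cube.prod MeasurableSet.univ)]
    exact i2
  · intro p
    simp only [indicator]
    have hp := hf.nonneg t h0 h1 p.1 p.2
    by_cases hc : p.1 ∈ cube d
    · by_cases hn : p.1 ∈ near a r
      · have hS := S_le_of_near hn hr
        simp [hc, hn, inb, hS]
      · have : 0 ≤ f t p.1 p.2 * (inb a (r ^ 2) p.1 * ‖p.2‖ ^ 2) :=
          mul_nonneg hp (mul_nonneg (inb_nonneg _ _ _) (sq_nonneg _))
        simp [hc, hn, this]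
    · simp [hc]

/-- Virial bound with cutoff at the scale `ρ`. -/
lemma Eb_bound (hf : IsSolution B T f) {r ρ : ℝ} (hr : 0 < r) (hrρ : 2 * r ≤ ρ)
    (hρ : Real.pi * ρ ≤ 1) (a : V d) {m : ℝ}
    (hm : ∀ t, 0 ≤ t → t < T → Mo f a (ρ ^ 2) t ≤ m) {t₁ t₂ : ℝ}
    (h0 : 0 ≤ t₁) (h1 : t₁ ≤ t₂) (h2 : t₂ < T) :
    ∫ t in t₁..t₂, Eb f a (r ^ 2) t ≤
      8 * r * (2 * Real.sqrt (m * energy f 0) + 5 / ρ * energy f 0 * (t₂ - t₁)) := by
  have hρ0 : 0 < ρ := by linarith
  have h := virial_ineq hf hr hrρ hρ a h0 h1 h2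
  have hJ : ∀ t, 0 ≤ t → t < T → |J f r ρ a t| ≤ Real.sqrt (m * energy f 0) := by
    intro t ht0 ht1
    refine (abs_J_le hf hr hρ0 a ht0 ht1).trans (Real.sqrt_le_sqrt ?_)
    exact mul_le_mul (hm t ht0 ht1) (Eo_le hf a _ ht0 ht1) (Eo_nonneg hf a _ ht0 ht1)
      ((Mo_nonneg hf a _ ht0 ht1).trans (hm t ht0 ht1))
  have hJ1 := abs_le.mp (hJ t₁ h0 (lt_of_le_of_lt h1 h2))
  have hJ2 := abs_le.mp (hJ t₂ (h0.trans h1) h2)
  have hE : ∫ t in t₁..t₂, Eo f a (ρ ^ 2) t ≤ energy f 0 * (t₂ - t₁) := by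
    calc ∫ t in t₁..t₂, Eo f a (ρ ^ 2) t ≤ ∫ _t in t₁..t₂, energy f 0 := by
          refine intervalIntegral.integral_mono_on h1
            ((weight_ino_sq a (ρ ^ 2)).intervalIntegrable hf h0 h1 h2) (by simp) fun t ht => ?_
          exact Eo_le hf a _ (h0.trans ht.1) (lt_of_le_of_lt ht.2 h2)
      _ = _ := by rw [intervalIntegral.integral_const]; simp; ring
  have h5 : 5 / ρ * (∫ t in t₁..t₂, Eo f a (ρ ^ 2) t) ≤ 5 / ρ * energy f 0 * (t₂ - t₁) := by
    have : 0 ≤ 5 / ρ := by positivity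
    calc _ ≤ 5 / ρ * (energy f 0 * (t₂ - t₁)) := by gcongr
      _ = _ := by ring
  have h6 : 1 / (8 * r) * (∫ t in t₁..t₂, Eb f a (r ^ 2) t) ≤
      2 * Real.sqrt (m * energy f 0) + 5 / ρ * energy f 0 * (t₂ - t₁) := by linarith
  have h7 : ∫ t in t₁..t₂, Eb f a (r ^ 2) t =
      8 * r * (1 / (8 * r) * (∫ t in t₁..t₂, Eb f a (r ^ 2) t)) := by field_simp
  rw [h7]
  gcongr

end Pool.Agent.H82.BZ
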